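import Pool.Agent.HBM3.Main

/-!
# At most five points in the plane: convex cyclic order
-/

namespace Pool.Agent.HBM5

open Pool.Agent.HBM3

/-- A finite set contains a subset with the same convex hull, no point of which is in the convex
hull of the others. -/
theorem exists_min (n : ℕ) : ∀ S : Finset Pl, S.card = n → ∃ T ⊆ S,
    convexHull ℝ (T : Set Pl) = convexHull ℝ (S : Set Pl) ∧
      ∀ x ∈ T, x ∉ convexHull ℝ ((T : Set Pl) \ {x}) := by
  classical
  induction n with
  | zero =>
    intro S hS
    refine ⟨S, Finset.Subset.refl _, rfl, ?_⟩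
    intro x hx
    rw [Finset.card_eq_zero] at hS
    simp [hS] at hx
  | succ n ih =>
    intro S hS
    by_cases h : ∀ x ∈ S, x ∉ convexHull ℝ ((S : Set Pl) \ {x})
    · exact ⟨S, Finset.Subset.refl _, rfl, h⟩
    · push Not at h
      obtain ⟨x, hx, hx'⟩ := h
      obtain ⟨T, hT, hT1, hT2⟩ := ih (S.erase x) (by rw [Finset.card_erase_of_mem hx, hS]; rfl)
      refine ⟨T, hT.trans (Finset.erase_subset _ _), ?_, hT2⟩
      rw [hT1, Finset.coe_erase]
      apply le_antisymm
      · exact convexHull_mono Set.sdiff_subset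
      · apply convexHull_min _ (convex_convexHull ℝ _)
        intro y hy
        by_cases hyx : y = x
        · rw [hyx]; exact hx'
        · exact subset_convexHull ℝ _ ⟨hy, hyx⟩

theorem det2_add (P A B C : Pl) : det2 A B C = det2 P A B + det2 P B C - det2 P A C := by
  unfold det2; ring

/-- barycentric coordinates -/
theorem mem_hull_of_det {P A B C : Pl} (h1 : 0 ≤ det2 P A B) (h2 : 0 ≤ det2 P B C)
    (h3 : det2 A B C < 0) : B ∈ convexHull ℝ ({P, A, C} : Set Pl) := by
  have hid := det2_add P A B C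
  have hD : 0 < det2 P A C := by linarith
  have hne : det2 P A C ≠ 0 := hD.ne'
  have hconv := convex_convexHull ℝ ({P, A, C} : Set Pl)
  have hP : P ∈ convexHull ℝ ({P, A, C} : Set Pl) := subset_convexHull ℝ _ (by simp)
  have hA : A ∈ convexHull ℝ ({P, A, C} : Set Pl) := subset_convexHull ℝ _ (by simp)
  have hC : C ∈ convexHull ℝ ({P, A, C} : Set Pl) := subset_convexHull ℝ _ (by simp)
  have key : B = (-det2 A B C / det2 P A C) • P + (det2 P B C / det2 P A C) • A
      + (det2 P A B / det2 P A C) • C := by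
    ext i
    have e : ((-det2 A B C / det2 P A C) • P + (det2 P B C / det2 P A C) • A
      + (det2 P A B / det2 P A C) • C : Pl) i
        = (-det2 A B C * P i + det2 P B C * A i + det2 P A B * C i) / det2 P A C := by
      simp only [PiLp.add_apply, PiLp.smul_apply, smul_eq_mul]
      ring
    rw [e, eq_div_iff hne]
    unfold det2
    fin_cases i <;> simp <;> ring
  rw [key]
  have hsum : -det2 A B C / det2 P A C + det2 P B C / det2 P A C + det2 P A B / det2 P A C = 1 := by
    rw [← add_div, ← add_div, div_eq_one_iff_eq hne, hid]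
    ring
  have := hconv.sum_mem (t := (Finset.univ : Finset (Fin 3)))
    (w := ![-det2 A B C / det2 P A C, det2 P B C / det2 P A C, det2 P A B / det2 P A C])
    (z := ![P, A, C]) ?_ ?_ ?_
  · simpa [Fin.sum_univ_three] using this
  · intro i _
    fin_cases i
    · exact div_nonneg (by linarith) hD.le
    · exact div_nonneg h2 hD.le
    · exact div_nonneg h1 hD.le
  · simpa [Fin.sum_univ_three] using hsum
  · intro i _
    fin_cases i
    · exact hP
    · exact hA
    · exact hC

/-- If all points of `T` are on a line, the hull has empty interior. -/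
theorem not_interior {T : Set Pl} {A B : Pl} (hAB : A ≠ B) (h : ∀ q ∈ T, det2 A B q = 0) :
    ¬ (interior (convexHull ℝ T)).Nonempty := by
  rintro ⟨p, hp⟩
  have hall : ∀ q ∈ convexHull ℝ T, det2 A B q = 0 := by
    have hc : Convex ℝ {q : Pl | det2 A B q = 0} := by
      intro x hx y hy a b ha hb hab
      simp only [Set.mem_ofPred_eq, det2, PiLp.add_apply, PiLp.smul_apply, smul_eq_mul] at hx hy ⊢
      have hb' : b = 1 - a := by linarith
      subst hb'
      linear_combination a * hx + (1 - a) * hy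
    intro q hq
    exact convexHull_min h hc hq
  obtain ⟨r, hr, hball⟩ := Metric.isOpen_iff.1 isOpen_interior p hp
  have hmem : ∀ i : Fin 2, p + EuclideanSpace.single i (r/2) ∈ convexHull ℝ T := by
    intro i
    refine interior_subset (hball ?_)
    rw [Metric.mem_ball, dist_eq_norm, add_sub_cancel_left, EuclideanSpace.norm_single,
      Real.norm_eq_abs, abs_of_pos (by linarith)]
    linarith
  have h0 := hall _ (interior_subset hp)
  have h1 := hall _ (hmem 0)
  have h2 := hall _ (hmem 1)
  apply hAB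
  unfold det2 at h0 h1 h2
  simp at h1 h2
  ext i
  fin_cases i
  · simp only [Fin.zero_eta, Fin.isValue]
    have : (B 0 - A 0) * (r/2) = 0 := by linarith
    rcases mul_eq_zero.1 this with h | h <;> linarith
  · simp only [Fin.mk_one, Fin.isValue]
    have : (B 1 - A 1) * (r/2) = 0 := by linarith
    rcases mul_eq_zero.1 this with h | h <;> linarith

/-- key function -/
theorem exists_key {T : Set Pl} (hT : T.Finite) (hne : T.Nonempty) {p : Pl}
    (hp : p ∉ convexHull ℝ T) :
    ∃ key : Pl → ℝ, ∀ q ∈ T, ∀ r ∈ T, key q ≤ key r ↔ 0 ≤ det2 p q r := by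
  obtain ⟨f, u, hu, hf⟩ := geometric_hahn_banach_point_closed (convex_convexHull ℝ T)
    (hT.isCompact_convexHull (𝕜 := ℝ)).isClosed hp
  obtain ⟨α, hα⟩ : ∃ α, α = f (EuclideanSpace.single 0 1) := ⟨_, rfl⟩
  obtain ⟨β, hβ⟩ : ∃ β, β = f (EuclideanSpace.single 1 1) := ⟨_, rfl⟩
  have hfq : ∀ q : Pl, f q = α * q 0 + β * q 1 := by
    intro q
    have : q = q 0 • EuclideanSpace.single 0 1 + q 1 • EuclideanSpace.single 1 1 := by
      ext i
      fin_cases i <;> simp
    calc f q = f (q 0 • EuclideanSpace.single 0 1 + q 1 • EuclideanSpace.single 1 1) := by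
          rw [← this]
      _ = α * q 0 + β * q 1 := by
          rw [map_add, map_smul, map_smul, hα, hβ, smul_eq_mul, smul_eq_mul]; ring
  have hpos : ∀ q ∈ T, 0 < α * (q 0 - p 0) + β * (q 1 - p 1) := by
    intro q hq
    have h1 := hf q (subset_convexHull ℝ _ hq)
    rw [hfq] at h1 hu
    linarith
  have hab : 0 < α^2 + β^2 := by
    obtain ⟨q, hq⟩ := hne
    have h1 := hpos q hq
    rcases eq_or_ne α 0 with h | h
    · rcases eq_or_ne β 0 with h' | h'
      · rw [h, h'] at h1; simp at h1
      · positivity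
    · positivity
  refine ⟨fun q => (-β * (q 0 - p 0) + α * (q 1 - p 1)) / (α * (q 0 - p 0) + β * (q 1 - p 1)), ?_⟩
  intro q hq r hr
  have h1 := hpos q hq
  have h2 := hpos r hr
  rw [div_le_div_iff₀ h1 h2]
  have hid : (-β * (r 0 - p 0) + α * (r 1 - p 1)) * (α * (q 0 - p 0) + β * (q 1 - p 1))
      - (-β * (q 0 - p 0) + α * (q 1 - p 1)) * (α * (r 0 - p 0) + β * (r 1 - p 1))
      = (α^2 + β^2) * det2 p q r := by
    unfold det2; ring
  constructor
  · intro h
    have h3 : 0 ≤ (α^2 + β^2) * det2 p q r := by rw [← hid]; linarith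
    by_contra hcon
    have := mul_neg_of_pos_of_neg hab (not_le.1 hcon)
    linarith
  · intro h
    have h3 : 0 ≤ (α^2 + β^2) * det2 p q r := mul_nonneg hab.le h
    rw [← hid] at h3
    linarith

theorem exists_order (S : Finset Pl) (hS : S.card ≤ 5)
    (hint : (interior (convexHull ℝ (S : Set Pl))).Nonempty) :
    ∃ v : Fin 5 → Pl, (∀ i j k : Fin 5, i < j → j < k → 0 ≤ det2 (v i) (v j) (v k)) ∧
      convexHull ℝ (Set.range v) = convexHull ℝ (S : Set Pl) ∧
      0 < det2 (v 0) (v 1) (v 2) + det2 (v 0) (v 2) (v 3) + det2 (v 0) (v 3) (v 4) := by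
  classical
  obtain ⟨T, hTS, hT1, hT2⟩ := exists_min _ S rfl
  have hcard : T.card ≤ 5 := (Finset.card_le_card hTS).trans hS
  rw [← hT1] at hint
  have hTne : T.Nonempty := by
    rw [Finset.nonempty_iff_ne_empty]
    rintro rfl
    simp at hint
  obtain ⟨p, hp⟩ := hTne
  have hUne : (T.erase p).Nonempty := by
    rw [Finset.nonempty_iff_ne_empty]
    intro h
    have hTp : (T : Set Pl) = {p} := by
      ext x
      constructor
      · intro hx
        by_contra hxp
        have : x ∈ T.erase p := Finset.mem_erase.2 ⟨hxp, hx⟩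
        rw [h] at this
        simp at this
      · rintro rfl
        exact hp
    have hB : p ≠ p + EuclideanSpace.single 0 1 := by
      intro h
      have := congrArg (fun x : Pl => x 0) h
      simp at this
    refine not_interior hB ?_ hint
    intro q hq
    rw [hTp] at hq
    rw [Set.mem_singleton_iff.1 hq]
    unfold det2
    simp
  have hUcard : Fintype.card (T.erase p) ≤ Fintype.card (Fin 4) := by
    rw [Fintype.card_coe, Finset.card_erase_of_mem hp, Fintype.card_fin]
    omega
  obtain ⟨emb⟩ := Function.Embedding.nonempty_of_card_le hUcard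
  have : Nonempty (T.erase p) := hUne.to_subtype
  obtain ⟨w, hw⟩ : ∃ w : Fin 4 → T.erase p, Function.Surjective w :=
    ⟨Function.invFun emb, Function.invFun_surjective emb.injective⟩
  have hcoe : ((T.erase p : Finset Pl) : Set Pl) = (T : Set Pl) \ {p} := Finset.coe_erase _ _
  obtain ⟨key, hkey⟩ := exists_key (T := ((T.erase p : Finset Pl) : Set Pl))
    (Finset.finite_toSet _) hUne (p := p) (by rw [hcoe]; exact hT2 p hp)
  set σ := Tuple.sort (fun i => key (w i)) with hσ
  have hmono := Tuple.monotone_sort (fun i => key (w i))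
  set v : Fin 5 → Pl := Fin.cons p (fun i => ((w (σ i) : T.erase p) : Pl)) with hv
  have hv0 : v 0 = p := by rw [hv]; rfl
  have hvs : ∀ i : Fin 4, v i.succ = w (σ i) := fun i => by rw [hv]; rfl
  have hvU : ∀ i : Fin 4, v i.succ ∈ T.erase p := fun i => by rw [hvs]; exact (w (σ i)).2
  have hvT : ∀ i : Fin 5, v i ∈ T := by
    intro i
    refine Fin.cases ?_ ?_ i
    · rw [hv0]; exact hp
    · intro j; exact Finset.mem_of_mem_erase (hvU j)
  have hdet0 : ∀ i j : Fin 4, i ≤ j → 0 ≤ det2 p (v i.succ) (v j.succ) := by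
    intro i j hij
    rw [← hkey _ (hvU i) _ (hvU j), hvs, hvs]
    exact hmono hij
  have hdet : ∀ i j k : Fin 5, i < j → j < k → 0 ≤ det2 (v i) (v j) (v k) := by
    intro i j k hij hjk
    obtain ⟨j', rfl⟩ := Fin.exists_succ_eq.2 (Fin.pos_iff_ne_zero.1 ((Fin.zero_le i).trans_lt hij))
    obtain ⟨k', rfl⟩ := Fin.exists_succ_eq.2 (Fin.pos_iff_ne_zero.1 ((Fin.zero_le _).trans_lt hjk))
    have hjk' : j' < k' := Fin.succ_lt_succ_iff.1 hjk
    rcases Fin.eq_zero_or_eq_succ i with rfl | ⟨i', rfl⟩
    · rw [hv0]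
      exact hdet0 _ _ hjk'.le
    · have hij' : i' < j' := Fin.succ_lt_succ_iff.1 hij
      by_contra hcon
      have hcon := not_le.1 hcon
      have hmem := mem_hull_of_det (hdet0 _ _ hij'.le) (hdet0 _ _ hjk'.le) hcon
      have h1 : v i'.succ ≠ v j'.succ := by
        intro h
        rw [h] at hcon
        unfold det2 at hcon
        simp at hcon
      have h2 : v k'.succ ≠ v j'.succ := by
        intro h
        rw [h] at hcon
        have : det2 (v i'.succ) (v j'.succ) (v j'.succ) = 0 := by unfold det2; ring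
        linarith
      have h3 : p ≠ v j'.succ := fun h => (Finset.mem_erase.1 (hvU j')).1 h.symm
      refine hT2 _ (hvT j'.succ) (convexHull_mono ?_ hmem)
      rintro x (rfl | rfl | rfl)
      · exact ⟨hp, h3⟩
      · exact ⟨hvT _, h1⟩
      · exact ⟨hvT _, h2⟩
  have hrange : Set.range v = (T : Set Pl) := by
    ext x
    constructor
    · rintro ⟨i, rfl⟩
      exact hvT i
    · intro hx
      by_cases hxp : x = p
      · exact ⟨0, by rw [hv0, hxp]⟩
      · obtain ⟨i, hi⟩ := hw ⟨x, Finset.mem_erase.2 ⟨hxp, hx⟩⟩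
        refine ⟨(σ.symm i).succ, ?_⟩
        rw [hvs, Equiv.apply_symm_apply, hi]
  refine ⟨v, hdet, by rw [hrange, hT1], ?_⟩
  have e1 : 0 ≤ det2 (v 0) (v 1) (v 2) := hdet 0 1 2 (by decide) (by decide)
  have e2 : 0 ≤ det2 (v 0) (v 2) (v 3) := hdet 0 2 3 (by decide) (by decide)
  have e3 : 0 ≤ det2 (v 0) (v 3) (v 4) := hdet 0 3 4 (by decide) (by decide)
  by_contra hcon
  have z1 : det2 (v 0) (v 1) (v 2) = 0 := by linarith
  have z2 : det2 (v 0) (v 2) (v 3) = 0 := by linarith
  have z3 : det2 (v 0) (v 3) (v 4) = 0 := by linarith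
  have hsw : ∀ A B C : Pl, det2 A C B = - det2 A B C := by
    intro A B C; unfold det2; ring
  -- all keys are equal
  have hk : ∀ i j : Fin 4, det2 p (v i.succ) (v j.succ) = 0 → key (v i.succ) = key (v j.succ) := by
    intro i j h
    apply le_antisymm
    · rw [hkey _ (hvU i) _ (hvU j), h]
    · rw [hkey _ (hvU j) _ (hvU i), hsw, h]; simp
  rw [hv0] at z1 z2 z3
  have k1 := hk 0 1 z1
  have k2 := hk 1 2 z2
  have k3 := hk 2 3 z3
  have hall : ∀ i : Fin 4, key (v (Fin.succ 0)) = key (v i.succ) := by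
    intro i
    fin_cases i
    · rfl
    · exact k1
    · exact k1.trans k2
    · exact (k1.trans k2).trans k3
  have hz : ∀ i : Fin 4, det2 p (v (Fin.succ 0)) (v i.succ) = 0 := by
    intro i
    apply le_antisymm
    · have := (hkey _ (hvU i) _ (hvU 0)).1 (hall i).ge
      rw [hsw] at this
      linarith
    · exact (hkey _ (hvU 0) _ (hvU i)).1 (hall i).le
  refine not_interior (A := p) (B := v (Fin.succ 0))
    (fun h => (Finset.mem_erase.1 (hvU 0)).1 h.symm) ?_ hint
  intro q hq
  rw [← hrange] at hq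
  obtain ⟨i, rfl⟩ := hq
  refine Fin.cases ?_ ?_ i
  · rw [hv0]; unfold det2; ring
  · intro j; exact hz j

end Pool.Agent.HBM5
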