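import Pool.Agent.HBM5.Main
import Pool.Agent.HBM5.Sort

/-!
# Every convex polygon with at most five vertices is within `1 + √5/2` of a triangle
-/

namespace Pool.Agent.HBM5

open Pointwise Pool.Agent.HBM3

theorem sqrt5_sq : (Real.sqrt 5)^2 = 5 := Real.sq_sqrt (by norm_num)

theorem sqrt5_pos : 0 < Real.sqrt 5 := Real.sqrt_pos.2 (by norm_num)

/-- Geometric form. -/
theorem ngon_geo {C : Set Pl} (hC : IsNGon 5 C) : ∃ P : Set Pl, IsNGon 3 P ∧ P ⊆ C ∧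
    ∃ t : Pl, C ⊆ (1 + Real.sqrt 5/2 : ℝ) • P + {t} := by
  classical
  obtain ⟨S, hS, rfl, hint⟩ := hC
  obtain ⟨v, hv, hhull, hpos⟩ := exists_order S hS hint
  obtain ⟨V1, hV1, V2, hV2, V3, hV3, t, ht⟩ := five_points v hv hpos sqrt5_sq sqrt5_pos
  rw [hhull] at hV1 hV2 hV3 ht
  have hne : (1 + Real.sqrt 5/2 : ℝ) ≠ 0 := by have := sqrt5_pos; positivity
  refine ⟨convexHull ℝ ({V1, V2, V3} : Set Pl), ⟨{V1, V2, V3}, Finset.card_le_three, by simp, ?_⟩,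
    ?_, t, ht⟩
  · obtain ⟨p, hp⟩ := hint
    have h5 := interior_mono ht hp
    rw [Set.add_singleton] at h5
    have h6 : (fun x : Pl => x + t) '' ((1 + Real.sqrt 5/2 : ℝ) • convexHull ℝ
        ({V1, V2, V3} : Set Pl)) = (Homeomorph.addRight t) '' ((1 + Real.sqrt 5/2 : ℝ) •
          convexHull ℝ ({V1, V2, V3} : Set Pl)) := rfl
    rw [h6, ← (Homeomorph.addRight t).image_interior] at h5
    obtain ⟨q, hq, -⟩ := h5
    rw [interior_smul₀ hne] at hq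
    obtain ⟨q', hq', -⟩ := hq
    exact ⟨q', hq'⟩
  · refine convexHull_min ?_ (convex_convexHull ℝ _)
    rintro v (rfl | rfl | rfl)
    · exact hV1
    · exact hV2
    · exact hV3

theorem homDist_le_of {K P : Set Pl} {r : ℝ} (hr : 0 < r) (hPK : P ⊆ K) {t : Pl}
    (ht : K ⊆ r • P + {t}) : homDist K P ≤ r := by
  refine csInf_le ⟨0, fun _ h => homRatios_pos h⟩ ?_
  refine ⟨r⁻¹, 1, -(r⁻¹ • t), 0, inv_pos.2 hr, one_pos, ?_, ?_, by simp⟩
  · intro x hx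
    obtain ⟨y, hy, t', ht', rfl⟩ := Set.mem_add.1 hx
    rw [Set.mem_singleton_iff] at ht'
    subst ht'
    obtain ⟨k, hk, rfl⟩ := hy
    obtain ⟨z, hz, t'', ht'', hzt⟩ := Set.mem_add.1 (ht hk)
    rw [Set.mem_singleton_iff] at ht''
    subst ht''
    obtain ⟨v, hv, rfl⟩ := hz
    have : r⁻¹ • k + -(r⁻¹ • t'') = v := by
      rw [← hzt, smul_add, smul_smul, inv_mul_cancel₀ hr.ne', one_smul]
      abel
    simp only at this ⊢
    rw [this]
    exact hv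
  · intro x hx
    rw [one_smul, Set.add_singleton]
    exact ⟨x, hPK hx, by simp⟩

theorem ngon_dist {C : Set Pl} (hC : IsNGon 5 C) :
    ∃ P : Set Pl, IsNGon 3 P ∧ homDist C P ≤ 1 + Real.sqrt 5/2 := by
  obtain ⟨P, hP, hPC, t, ht⟩ := ngon_geo hC
  have := sqrt5_pos
  exact ⟨P, hP, homDist_le_of (by positivity) hPC ht⟩

theorem ngon_sup :
    sSup {x | ∃ C, IsNGon 5 C ∧ x = sInf {y | ∃ P, IsNGon 3 P ∧ y = homDist C P}}
      ≤ 1 + Real.sqrt 5/2 := by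
  have h5 := sqrt5_pos
  refine Real.sSup_le ?_ (by positivity)
  rintro x ⟨C, hC, rfl⟩
  obtain ⟨P, hP, hd⟩ := ngon_dist hC
  refine le_trans (csInf_le ⟨0, ?_⟩ ⟨P, hP, rfl⟩) hd
  rintro y ⟨Q, -, rfl⟩
  exact homDist_nonneg C Q

end Pool.Agent.HBM5
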