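import Pool.Agent.HBM5.Poly

/-!
# The real inequality behind the pentagon theorem
-/

namespace Pool.Agent.HBM5

theorem sqrt5_bounds {w : ℝ} (hw : w^2 = 5) (hw0 : 0 < w) :
    223606/100000 ≤ w ∧ w ≤ 223607/100000 := by
  constructor
  · by_contra h
    have h1 := not_le.1 h
    have := mul_self_lt_mul_self hw0.le h1
    nlinarith
  · by_contra h
    have h1 := not_le.1 h
    have := mul_self_lt_mul_self (by norm_num) h1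
    nlinarith

/-- Upper bound for an ear. -/
theorem ear_le {x0 x1 x2 x3 x4 c : ℝ} (hc1 : 52786/100000 ≤ c) (hc2 : c ≤ 52788/100000)
    (n2 : 0 ≤ x2) (n3 : 0 ≤ x3)
    (G : 1 - (x0+x1+x2+x3+x4) + (x0*x1+x1*x2+x2*x3+x3*x4+x4*x0) = 0)
    (c1 : c ≤ x2+x0) (c2 : c ≤ x3+x1) (c3 : c ≤ x4+x2) (c4 : c ≤ x0+x3)
    (d0 : x1+x4 ≤ 1) (d1 : x2+x0 ≤ 1) (d4 : x0+x3 ≤ 1) : x0 ≤ 3355/10000 := by
  have t1 : 0 ≤ 1 - x0 - x2 := by linarith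
  have t4 : 0 ≤ 1 - x3 - x0 := by linarith
  have u : 0 ≤ x1 - (c - x3) := by linarith
  have v : 0 ≤ x4 - (c - x2) := by linarith
  have k1 : x0*(1-x0) ≤ (1-c)^2 := by
    have h1 := mul_nonneg t1 u
    have h2 := mul_nonneg t4 v
    have h3 := mul_nonneg (by linarith : 0 ≤ x2 - (c - x0)) (by linarith : 0 ≤ x3 - (c - x0))
    linarith
  by_contra hcon
  have hx := not_le.1 hcon
  have hcc : (1-c)^2 ≤ 22292/100000 := by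
    have : (1-c) ≤ 47214/100000 := by linarith
    have h2 : (1-c)^2 ≤ (47214/100000)^2 := by
      have h0 : 0 ≤ 1 - c := by linarith
      exact pow_le_pow_left₀ h0 this 2
    norm_num at h2 ⊢
    linarith
  -- `x0` is at least `0.66`
  have h6 : 66/100 ≤ x0 := by
    by_contra h
    have h' := not_le.1 h
    have := mul_pos (by linarith : 0 < x0 - 3355/10000) (by linarith : 0 < 66/100 - x0)
    linarith
  -- the identities for two of the diagonals' triangles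
  have p1 : x0*x2 + x1*(1-x0-x2) ≤ (1-c)*(1-x3-x0) := by
    have e : (1-x4-x2)*(1-x3-x0) = x0*x2 + x1*(1-x0-x2) := by linear_combination G
    rw [← e]
    exact mul_le_mul_of_nonneg_right (by linarith) t4
  have p4 : x0*x3 + x4*(1-x3-x0) ≤ (1-c)*(1-x0-x2) := by
    have e : (1-x3-x1)*(1-x0-x2) = x0*x3 + x4*(1-x3-x0) := by linear_combination G
    rw [← e]
    exact mul_le_mul_of_nonneg_right (by linarith) t1
  have q1 := mul_nonneg u t1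
  have q4 := mul_nonneg v t4
  have hS : 5/100 ≤ x2 + x3 := by linarith
  have r1 : 0 < (x2+x3)*(x0-c) := mul_pos (by linarith) (by linarith)
  have r2 : 0 ≤ x2*x3 := mul_nonneg n2 n3
  have r3 : 0 ≤ (2*c-1)*(1-x0) := mul_nonneg (by linarith) (by linarith)
  linarith

/-- Gauss' relation in the modes. -/
theorem gauss_modes {w : ℝ} (hw : w^2 = 5) {x0 x1 x2 x3 x4 M : ℝ} (hM : x4 = 5*M-x0-x1-x2-x3)
    (G : 1 - (x0+x1+x2+x3+x4) + (x0*x1+x1*x2+x2*x3+x3*x4+x4*x0) = 0) :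
    ∀ g : ℝ → ℝ → ℝ, (∀ s n, g s n = (w-1)/4*((s + w*n/5)/2)^2 - (w+1)/4*((s - w*n/5)/2)^2) →
    w*(M-(5-w)/10) - 5*(M-(5-w)/10)^2 = g (x0-M) (x1+x4-x2-x3) + g (x1-M) (x2+x0-x3-x4)
      + g (x2-M) (x3+x1-x4-x0) + g (x3-M) (x4+x2-x0-x1) + g (x4-M) (x0+x3-x1-x2) := by
  intro g hg
  have hg' : ∀ s n, g s n = s*n/4 - s^2/8 - n^2/40 := by
    intro s n
    rw [hg]
    linear_combination (n*s/20 - n^2/200)*hw
  simp only [hg']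
  subst hM
  linear_combination (1/20 : ℝ)*hw - G

theorem core {x0 x1 x2 x3 x4 w : ℝ} (hw : w^2 = 5) (hw0 : 0 < w)
    (n0 : 0 ≤ x0) (n1 : 0 ≤ x1) (n2 : 0 ≤ x2) (n3 : 0 ≤ x3) (n4 : 0 ≤ x4)
    (G : 1 - (x0+x1+x2+x3+x4) + (x0*x1+x1*x2+x2*x3+x3*x4+x4*x0) = 0)
    (c0 : 5-2*w ≤ x1+x4) (c1 : 5-2*w ≤ x2+x0) (c2 : 5-2*w ≤ x3+x1) (c3 : 5-2*w ≤ x4+x2)
    (c4 : 5-2*w ≤ x0+x3)
    (d0 : x1+x4 ≤ 1) (d1 : x2+x0 ≤ 1) (d2 : x3+x1 ≤ 1) (d3 : x4+x2 ≤ 1) (d4 : x0+x3 ≤ 1) :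
    ((1923/10000 ≤ x0 ∧ x0 ≤ 3355/10000) ∧ (1923/10000 ≤ x1 ∧ x1 ≤ 3355/10000) ∧
      (1923/10000 ≤ x2 ∧ x2 ≤ 3355/10000) ∧ (1923/10000 ≤ x3 ∧ x3 ≤ 3355/10000) ∧
      (1923/10000 ≤ x4 ∧ x4 ≤ 3355/10000)) ∧
    0 ≤ Wf w x0 x1 x4 x2 x3 + Wf w x1 x2 x0 x3 x4 + Wf w x2 x3 x1 x4 x0 + Wf w x3 x4 x2 x0 x1
      + Wf w x4 x0 x3 x1 x2 := by
  obtain ⟨hw1, hw2⟩ := sqrt5_bounds hw hw0
  have hc1 : 52786/100000 ≤ 5-2*w := by linarith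
  have hc2 : 5-2*w ≤ 52788/100000 := by linarith
  have u0 : x0 ≤ 3355/10000 := ear_le hc1 hc2 n2 n3 G c1 c2 c3 c4 d0 d1 d4
  have u1 : x1 ≤ 3355/10000 := ear_le (x2 := x3) (x3 := x4) hc1 hc2 n3 n4
    (by linarith : 1 - (x1+x2+x3+x4+x0) + (x1*x2+x2*x3+x3*x4+x4*x0+x0*x1) = 0)
    c2 c3 c4 (by linarith) d1 (by linarith) (by linarith)
  have u2 : x2 ≤ 3355/10000 := ear_le (x2 := x4) (x3 := x0) hc1 hc2 n4 n0
    (by linarith : 1 - (x2+x3+x4+x0+x1) + (x2*x3+x3*x4+x4*x0+x0*x1+x1*x2) = 0)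
    c3 c4 (by linarith) (by linarith) d2 (by linarith) (by linarith)
  have u3 : x3 ≤ 3355/10000 := ear_le (x2 := x0) (x3 := x1) hc1 hc2 n0 n1
    (by linarith : 1 - (x3+x4+x0+x1+x2) + (x3*x4+x4*x0+x0*x1+x1*x2+x2*x3) = 0)
    c4 (by linarith) (by linarith) (by linarith) d3 (by linarith) (by linarith)
  have u4 : x4 ≤ 3355/10000 := ear_le (x2 := x1) (x3 := x2) hc1 hc2 n1 n2
    (by linarith : 1 - (x4+x0+x1+x2+x3) + (x4*x0+x0*x1+x1*x2+x2*x3+x3*x4) = 0)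
    (by linarith) (by linarith) (by linarith) (by linarith) (by linarith)
    (by linarith) (by linarith)
  have l0 : 1923/10000 ≤ x0 := by linarith
  have l1 : 1923/10000 ≤ x1 := by linarith
  have l2 : 1923/10000 ≤ x2 := by linarith
  have l3 : 1923/10000 ≤ x3 := by linarith
  have l4 : 1923/10000 ≤ x4 := by linarith
  refine ⟨⟨⟨l0, u0⟩, ⟨l1, u1⟩, ⟨l2, u2⟩, ⟨l3, u3⟩, ⟨l4, u4⟩⟩, ?_⟩
  obtain ⟨M, hM'⟩ : ∃ M, M = (x0+x1+x2+x3+x4)/5 := ⟨_, rfl⟩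
  have hM : x4 = 5*M - x0 - x1 - x2 - x3 := by rw [hM']; ring
  have hG := gauss_modes hw hM G (fun s n => (w-1)/4*((s + w*n/5)/2)^2
    - (w+1)/4*((s - w*n/5)/2)^2) (fun _ _ => rfl)
  obtain ⟨m, hm⟩ : ∃ m, m = M - (5-w)/10 := ⟨_, rfl⟩
  rw [← hm] at hG
  beta_reduce at hG
  -- bounds for the modes
  have key : ∀ {y0 y1 y2 y3 y4 : ℝ}, (1923/10000 ≤ y0 ∧ y0 ≤ 3355/10000) →
      (1923/10000 ≤ y1 ∧ y1 ≤ 3355/10000) → (1923/10000 ≤ y2 ∧ y2 ≤ 3355/10000) →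
      (1923/10000 ≤ y3 ∧ y3 ≤ 3355/10000) → (1923/10000 ≤ y4 ∧ y4 ≤ 3355/10000) →
      5*M = y0+y1+y2+y3+y4 → |((y0-M) + w*(y1+y4-y2-y3)/5)/2| ≤ 927/10000 ∧
        |((y0-M) - w*(y1+y4-y2-y3)/5)/2| ≤ 927/10000 := by
    intro y0 y1 y2 y3 y4 b0 b1 b2 b3 b4 hs
    have hMy : M = (y0+y1+y2+y3+y4)/5 := by linarith
    have w1 : 0 ≤ w - 1 := by linarith
    have e1 := mul_nonneg w1 (by linarith : 0 ≤ y1 + y4 - 2*(1923/10000))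
    have e2 := mul_nonneg w1 (by linarith : 0 ≤ 2*(3355/10000) - y1 - y4)
    have e3 := mul_nonneg w1 (by linarith : 0 ≤ y2 + y3 - 2*(1923/10000))
    have e4 := mul_nonneg w1 (by linarith : 0 ≤ 2*(3355/10000) - y2 - y3)
    have w2 : 0 ≤ w + 1 := by linarith
    have g1 := mul_nonneg w2 (by linarith : 0 ≤ y1 + y4 - 2*(1923/10000))
    have g2 := mul_nonneg w2 (by linarith : 0 ≤ 2*(3355/10000) - y1 - y4)
    have g3 := mul_nonneg w2 (by linarith : 0 ≤ y2 + y3 - 2*(1923/10000))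
    have g4 := mul_nonneg w2 (by linarith : 0 ≤ 2*(3355/10000) - y2 - y3)
    rw [abs_le, abs_le, hMy]
    refine ⟨⟨?_, ?_⟩, ⟨?_, ?_⟩⟩
    · linarith
    · linarith
    · linarith
    · linarith
  have K0 := key ⟨l0, u0⟩ ⟨l1, u1⟩ ⟨l2, u2⟩ ⟨l3, u3⟩ ⟨l4, u4⟩ (by linarith)
  have K1 := key ⟨l1, u1⟩ ⟨l2, u2⟩ ⟨l3, u3⟩ ⟨l4, u4⟩ ⟨l0, u0⟩ (by linarith)
  have K2 := key ⟨l2, u2⟩ ⟨l3, u3⟩ ⟨l4, u4⟩ ⟨l0, u0⟩ ⟨l1, u1⟩ (by linarith)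
  have K3 := key ⟨l3, u3⟩ ⟨l4, u4⟩ ⟨l0, u0⟩ ⟨l1, u1⟩ ⟨l2, u2⟩ (by linarith)
  have K4 := key ⟨l4, u4⟩ ⟨l0, u0⟩ ⟨l1, u1⟩ ⟨l2, u2⟩ ⟨l3, u3⟩ (by linarith)
  rw [sumW w x0 x1 x2 x3 x4 M hM, Phi_eq hw, Phi_eq hw, Phi_eq hw, Phi_eq hw, Phi_eq hw, ← hm]
  generalize ((x0-M) + w*(x1+x4-x2-x3)/5)/2 = a0 at *
  generalize ((x0-M) - w*(x1+x4-x2-x3)/5)/2 = b0 at *
  generalize ((x1-M) + w*(x2+x0-x3-x4)/5)/2 = a1 at *
  generalize ((x1-M) - w*(x2+x0-x3-x4)/5)/2 = b1 at *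
  generalize ((x2-M) + w*(x3+x1-x4-x0)/5)/2 = a2 at *
  generalize ((x2-M) - w*(x3+x1-x4-x0)/5)/2 = b2 at *
  generalize ((x3-M) + w*(x4+x2-x0-x1)/5)/2 = a3 at *
  generalize ((x3-M) - w*(x4+x2-x0-x1)/5)/2 = b3 at *
  generalize ((x4-M) + w*(x0+x3-x1-x2)/5)/2 = a4 at *
  generalize ((x4-M) - w*(x0+x3-x1-x2)/5)/2 = b4 at *
  have hm1 : -(125/10000) ≤ m := by
    rw [hm, hM']
    linarith
  have hsq : ∀ {a : ℝ}, |a| ≤ 927/10000 → a^2 ≤ 8594/1000000 := by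
    intro a ha
    have := abs_mul_le' ha ha
    rw [abs_mul_self] at this
    rw [sq]; linarith
  have hm2 : m ≤ 69/10000 := by
    by_contra hcon
    have hmp := not_le.1 hcon
    have hmu : m ≤ 60/1000 := by
      rw [hm, hM']
      linarith
    have hw1' : 0 ≤ (w-1)/4 := by linarith
    have hw2' : 0 ≤ (w+1)/4 := by linarith
    have a0' := mul_le_mul_of_nonneg_left (hsq K0.1) hw1'
    have a1' := mul_le_mul_of_nonneg_left (hsq K1.1) hw1'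
    have a2' := mul_le_mul_of_nonneg_left (hsq K2.1) hw1'
    have a3' := mul_le_mul_of_nonneg_left (hsq K3.1) hw1'
    have a4' := mul_le_mul_of_nonneg_left (hsq K4.1) hw1'
    have b0' := mul_nonneg hw2' (sq_nonneg b0)
    have b1' := mul_nonneg hw2' (sq_nonneg b1)
    have b2' := mul_nonneg hw2' (sq_nonneg b2)
    have b3' := mul_nonneg hw2' (sq_nonneg b3)
    have b4' := mul_nonneg hw2' (sq_nonneg b4)
    have h1 : w*m - 5*m^2 ≤ 5*((w-1)/4*(8594/1000000)) := by linarith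
    have h2 : 2236/1000*m ≤ w*m := mul_le_mul_of_nonneg_right (by linarith) (by linarith)
    have h3 : m*m ≤ 60/1000*m := mul_le_mul_of_nonneg_right hmu (by linarith)
    linarith
  have hwa : 2236/1000 ≤ w := by linarith
  have hwb : w ≤ 22361/10000 := by linarith
  have H0 := hP_nonneg hwa hwb hm1 hm2 K0.1 K0.2
  have H1 := hP_nonneg hwa hwb hm1 hm2 K1.1 K1.2
  have H2 := hP_nonneg hwa hwb hm1 hm2 K2.1 K2.2
  have H3 := hP_nonneg hwa hwb hm1 hm2 K3.1 K3.2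
  have H4 := hP_nonneg hwa hwb hm1 hm2 K4.1 K4.2
  rw [hP_eq hw] at H0 H1 H2 H3 H4
  have e : fP w m a0 b0 + fP w m a1 b1 + fP w m a2 b2 + fP w m a3 b3 + fP w m a4 b4
      = (fP w m a0 b0 + (3 - w + 8*m)*(w*m/5 - m^2 - (w-1)/4*a0^2 + (w+1)/4*b0^2))
      + (fP w m a1 b1 + (3 - w + 8*m)*(w*m/5 - m^2 - (w-1)/4*a1^2 + (w+1)/4*b1^2))
      + (fP w m a2 b2 + (3 - w + 8*m)*(w*m/5 - m^2 - (w-1)/4*a2^2 + (w+1)/4*b2^2))
      + (fP w m a3 b3 + (3 - w + 8*m)*(w*m/5 - m^2 - (w-1)/4*a3^2 + (w+1)/4*b3^2))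
      + (fP w m a4 b4 + (3 - w + 8*m)*(w*m/5 - m^2 - (w-1)/4*a4^2 + (w+1)/4*b4^2)) := by
    linear_combination -(3 - w + 8*m)*hG
  rw [e]
  linarith

end Pool.Agent.HBM5
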