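import Pool.Agent.HBM5.Core
import Pool.Agent.HBM3.Main

/-!
# The test triangles of a pentagon
-/

namespace Pool.Agent.HBM5

open Pointwise Pool.Agent.HBM3

theorem det2_comb1 {a b : ℝ} (h : a + b = 1) (P Q V W : Pl) :
    det2 (a • P + b • Q) V W = a * det2 P V W + b * det2 Q V W := by
  have hb : b = 1 - a := by linarith
  subst hb
  simp only [det2, PiLp.add_apply, PiLp.smul_apply, smul_eq_mul]
  ring

theorem det2_cyc (P Q R : Pl) : det2 P Q R = det2 Q R P := by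
  unfold det2
  ring

theorem det2_swap (P Q R : Pl) : det2 P Q R = -det2 P R Q := by
  unfold det2
  ring

theorem det2_self1 (P Q : Pl) : det2 P P Q = 0 := by
  unfold det2
  ring

theorem det2_self2 (P Q : Pl) : det2 P Q Q = 0 := by
  unfold det2
  ring

theorem det2_self3 (P Q : Pl) : det2 P Q P = 0 := by
  unfold det2
  ring

theorem det2_comb2 {a b : ℝ} (h : a + b = 1) (P Q V W : Pl) :
    det2 V (a • P + b • Q) W = a * det2 V P W + b * det2 V Q W := by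
  rw [det2_cyc, det2_comb1 h, det2_cyc V P, det2_cyc V Q]

theorem det2_comb3 {a b : ℝ} (h : a + b = 1) (P Q V W : Pl) :
    det2 V W (a • P + b • Q) = a * det2 V W P + b * det2 V W Q := by
  rw [← det2_cyc, det2_comb1 h, det2_cyc P, det2_cyc Q]

theorem convex_det1 (M e : ℝ) (V W : Pl) :
    Convex ℝ {P : Pl | -e ≤ M * det2 P V W} := by
  intro P hP Q hQ a b ha hb hab
  simp only [Set.mem_ofPred_eq] at *
  rw [det2_comb1 hab]
  have h1 := mul_le_mul_of_nonneg_left hP ha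
  have h2 := mul_le_mul_of_nonneg_left hQ hb
  have h3 : a * -e + b * -e = -e := by rw [← add_mul, hab, one_mul]
  linarith

/-- **Lemma L.** -/
theorem coverL {K : Set Pl} {V1 V2 V3 : Pl} {M e1 e2 e3 ka : ℝ} (hka : 0 < ka) (hM : 0 < M)
    (hdd : 0 < det2 V1 V2 V3)
    (hu1 : ∀ P ∈ K, -e1 ≤ M * det2 P V2 V3)
    (hu2 : ∀ P ∈ K, -e2 ≤ M * det2 P V3 V1)
    (hu3 : ∀ P ∈ K, -e3 ≤ M * det2 P V1 V2)
    (hs : e1 + e2 + e3 ≤ ka * (M * det2 V1 V2 V3)) :
    ∃ t : Pl, K ⊆ (1 + ka) • convexHull ℝ ({V1, V2, V3} : Set Pl) + {t} := by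
  set dd := det2 V1 V2 V3 with hdd'
  have hMd : 0 < M * dd := mul_pos hM hdd
  obtain ⟨e3', he3'⟩ : ∃ e, e = ka * (M * dd) - e1 - e2 := ⟨_, rfl⟩
  have h33 : e3 ≤ e3' := by linarith
  refine ⟨-((e1 / (M * dd)) • V1 + (e2 / (M * dd)) • V2 + (e3' / (M * dd)) • V3), ?_⟩
  intro P hP
  obtain ⟨d1, hd1⟩ : ∃ d, d = det2 P V2 V3 := ⟨_, rfl⟩
  obtain ⟨d2, hd2⟩ : ∃ d, d = det2 P V3 V1 := ⟨_, rfl⟩
  obtain ⟨d3, hd3⟩ : ∃ d, d = det2 P V1 V2 := ⟨_, rfl⟩
  have h1 := hu1 P hP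
  have h2 := hu2 P hP
  have h3 := hu3 P hP
  rw [← hd1] at h1
  rw [← hd2] at h2
  rw [← hd3] at h3
  have hsum : d1 + d2 + d3 = dd := by
    rw [hd1, hd2, hd3, hdd']
    unfold det2
    ring
  have hrep : dd • P = d1 • V1 + d2 • V2 + d3 • V3 := by
    rw [hd1, hd2, hd3, hdd']
    ext i
    unfold det2
    fin_cases i <;> simp <;> ring
  have hne : M * dd ≠ 0 := hMd.ne'
  have hMne : M ≠ 0 := hM.ne'
  have hdne : dd ≠ 0 := hdd.ne'
  have hk1 : 0 < 1 + ka := by linarith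
  have hkne : 1 + ka ≠ 0 := hk1.ne'
  refine Set.mem_add.2 ⟨(1 + ka) •
    (((M * d1 + e1) / ((1 + ka) * (M * dd))) • V1 + ((M * d2 + e2) / ((1 + ka) * (M * dd))) • V2 +
      ((M * d3 + e3') / ((1 + ka) * (M * dd))) • V3),
    Set.smul_mem_smul_set (mem_hull3 ?_ ?_ ?_ ?_), _, Set.mem_singleton _, ?_⟩
  · exact div_nonneg (by linarith) (by positivity)
  · exact div_nonneg (by linarith) (by positivity)
  · exact div_nonneg (by linarith) (by positivity)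
  · rw [← add_div, ← add_div, div_eq_one_iff_eq (by positivity)]
    rw [he3', ← hsum]
    ring
  · have hP' : P = dd⁻¹ • (d1 • V1 + d2 • V2 + d3 • V3) := by
      rw [← hrep, smul_smul, inv_mul_cancel₀ hdne, one_smul]
    conv_rhs => rw [hP']
    have k1 : (1 + ka) * ((M * d1 + e1) / ((1 + ka) * (M * dd))) = dd⁻¹ * d1 + e1 / (M * dd) := by
      field_simp
    have k2 : (1 + ka) * ((M * d2 + e2) / ((1 + ka) * (M * dd))) = dd⁻¹ * d2 + e2 / (M * dd) := by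
      field_simp
    have k3 : (1 + ka) * ((M * d3 + e3') / ((1 + ka) * (M * dd)))
        = dd⁻¹ * d3 + e3' / (M * dd) := by
      field_simp
    rw [smul_add, smul_add, smul_smul, smul_smul, smul_smul, k1, k2, k3]
    module

/-- A convex pentagon `K` with vertices `p0, ..., p4` in cyclic order, `S` twice its area, and
`S * x_i` twice the areas of the ears. -/
structure Pent (K : Set Pl) (p0 p1 p2 p3 p4 : Pl) (S x0 x1 x2 x3 x4 : ℝ) : Prop where
  conv : Convex ℝ K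
  m0 : p0 ∈ K
  m1 : p1 ∈ K
  m2 : p2 ∈ K
  m3 : p3 ∈ K
  m4 : p4 ∈ K
  min : ∀ s : Set Pl, Convex ℝ s → p0 ∈ s → p1 ∈ s → p2 ∈ s → p3 ∈ s → p4 ∈ s → K ⊆ s
  hS : 0 < S
  e0 : det2 p4 p0 p1 = S * x0
  e1 : det2 p0 p1 p2 = S * x1
  e2 : det2 p1 p2 p3 = S * x2
  e3 : det2 p2 p3 p4 = S * x3
  e4 : det2 p3 p4 p0 = S * x4
  f0 : det2 p0 p2 p3 = S * (1 - x1 - x4)
  f1 : det2 p1 p3 p4 = S * (1 - x2 - x0)
  f2 : det2 p2 p4 p0 = S * (1 - x3 - x1)
  f3 : det2 p3 p0 p1 = S * (1 - x4 - x2)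
  f4 : det2 p4 p1 p2 = S * (1 - x0 - x3)
  n0 : 0 ≤ x0
  n1 : 0 ≤ x1
  n2 : 0 ≤ x2
  n3 : 0 ≤ x3
  n4 : 0 ≤ x4
  d0 : 0 ≤ 1 - x1 - x4
  d1 : 0 ≤ 1 - x2 - x0
  d2 : 0 ≤ 1 - x3 - x1
  d3 : 0 ≤ 1 - x4 - x2
  d4 : 0 ≤ 1 - x0 - x3
  G : 1 - (x0+x1+x2+x3+x4) + (x0*x1+x1*x2+x2*x3+x3*x4+x4*x0) = 0

theorem Pent.rot {K : Set Pl} {p0 p1 p2 p3 p4 : Pl} {S x0 x1 x2 x3 x4 : ℝ}
    (h : Pent K p0 p1 p2 p3 p4 S x0 x1 x2 x3 x4) : Pent K p1 p2 p3 p4 p0 S x1 x2 x3 x4 x0 where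
  conv := h.conv
  m0 := h.m1
  m1 := h.m2
  m2 := h.m3
  m3 := h.m4
  m4 := h.m0
  min s hs a b c d e := h.min s hs e a b c d
  hS := h.hS
  e0 := h.e1
  e1 := h.e2
  e2 := h.e3
  e3 := h.e4
  e4 := h.e0
  f0 := h.f1
  f1 := h.f2
  f2 := h.f3
  f3 := h.f4
  f4 := h.f0
  n0 := h.n1
  n1 := h.n2
  n2 := h.n3
  n3 := h.n4
  n4 := h.n0
  d0 := h.d1
  d1 := h.d2
  d2 := h.d3
  d3 := h.d4
  d4 := h.d0
  G := by have := h.G; linarith

/-- The conclusion with ratio `1 + ka`. -/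
def Concl5 (ka : ℝ) (K : Set Pl) : Prop :=
  ∃ V1 ∈ K, ∃ V2 ∈ K, ∃ V3 ∈ K, ∃ t : Pl,
    K ⊆ (1 + ka) • convexHull ℝ ({V1, V2, V3} : Set Pl) + {t}

/-- The triangle `p0 p2 p3`. -/
theorem star {K : Set Pl} {p0 p1 p2 p3 p4 : Pl} {S x0 x1 x2 x3 x4 ka : ℝ}
    (h : Pent K p0 p1 p2 p3 p4 S x0 x1 x2 x3 x4) (hka : 0 < ka) (ht : 0 < 1 - x1 - x4)
    (hc : x1 + x4 ≤ ka * (1 - x1 - x4)) : Concl5 ka K := by
  have hS := h.hS
  refine ⟨p0, h.m0, p2, h.m2, p3, h.m3, ?_⟩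
  refine coverL (M := 1) (e1 := 0) (e2 := S*x4) (e3 := S*x1) hka one_pos ?_ ?_ ?_ ?_ ?_
  · rw [h.f0]; exact mul_pos hS ht
  · refine fun P hP => h.min _ (convex_det1 1 0 p2 p3) ?_ ?_ ?_ ?_ ?_ hP
    · simp only [Set.mem_ofPred_eq]
      rw [h.f0]; have := mul_nonneg hS.le h.d0; linarith
    · simp only [Set.mem_ofPred_eq]
      rw [h.e2]; have := mul_nonneg hS.le h.n2; linarith
    · simp only [Set.mem_ofPred_eq]
      rw [det2_self1]; simp
    · simp only [Set.mem_ofPred_eq]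
      rw [det2_self3]; simp
    · simp only [Set.mem_ofPred_eq]
      rw [det2_cyc, h.e3]; have := mul_nonneg hS.le h.n3; linarith
  · have k4 := mul_nonneg hS.le h.n4
    refine fun P hP => h.min _ (convex_det1 1 (S*x4) p3 p0) ?_ ?_ ?_ ?_ ?_ hP
    · simp only [Set.mem_ofPred_eq]
      rw [det2_self3]; linarith
    · simp only [Set.mem_ofPred_eq]
      rw [det2_cyc, h.f3]; have := mul_nonneg hS.le h.d3; linarith
    · simp only [Set.mem_ofPred_eq]
      rw [← det2_cyc, h.f0]; have := mul_nonneg hS.le h.d0; linarith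
    · simp only [Set.mem_ofPred_eq]
      rw [det2_self1]; linarith
    · simp only [Set.mem_ofPred_eq]
      rw [det2_swap, det2_cyc p4 p0 p3, det2_cyc p0 p3 p4, h.e4]; linarith
  · have k1 := mul_nonneg hS.le h.n1
    refine fun P hP => h.min _ (convex_det1 1 (S*x1) p0 p2) ?_ ?_ ?_ ?_ ?_ hP
    · simp only [Set.mem_ofPred_eq]
      rw [det2_self1]; linarith
    · simp only [Set.mem_ofPred_eq]
      rw [det2_swap, det2_cyc p1 p2 p0, det2_cyc p2 p0 p1, h.e1]; linarith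
    · simp only [Set.mem_ofPred_eq]
      rw [det2_self3]; linarith
    · simp only [Set.mem_ofPred_eq]
      rw [det2_cyc, h.f0]; have := mul_nonneg hS.le h.d0; linarith
    · simp only [Set.mem_ofPred_eq]
      rw [det2_cyc, det2_cyc, h.f2]; have := mul_nonneg hS.le h.d2; linarith
  · rw [h.f0]
    have := mul_le_mul_of_nonneg_left hc hS.le
    linarith

/-- The triangle with apex `p0` and base parallel to `p2 p3` at level `k`. -/
theorem level {K : Set Pl} {p0 p1 p2 p3 p4 : Pl} {S x0 x1 x2 x3 x4 ka k : ℝ}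
    (h : Pent K p0 p1 p2 p3 p4 S x0 x1 x2 x3 x4) (hka : 0 < ka) (hk : 0 ≤ k)
    (h2 : 0 < x2) (h3 : 0 < x3) (hk2 : k ≤ x2) (hk3 : k ≤ x3) (hkt : k < 1 - x1 - x4)
    (hR : 0 < x2*x3 + k*(1-x0-x2-x3))
    (hc : x2*x3*(x1+x4) ≤ (1-x1-x4-k)*(ka*(x2*x3) + (ka+1)*(k*(1-x0-x2-x3)))) :
    Concl5 ka K := by
  have hS := h.hS
  obtain ⟨la, hla⟩ : ∃ la, la = k/x2 := ⟨_, rfl⟩
  obtain ⟨mu, hmu⟩ : ∃ mu, mu = k/x3 := ⟨_, rfl⟩
  have la2 : la * x2 = k := by rw [hla]; field_simp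
  have mu3 : mu * x3 = k := by rw [hmu]; field_simp
  have la0 : 0 ≤ la := by rw [hla]; positivity
  have mu0 : 0 ≤ mu := by rw [hmu]; positivity
  have la1 : 0 ≤ 1 - la := by
    have : la ≤ 1 := by rw [hla, div_le_one h2]; exact hk2
    linarith
  have mu1 : 0 ≤ 1 - mu := by
    have : mu ≤ 1 := by rw [hmu, div_le_one h3]; exact hk3
    linarith
  have sla : (1 - la) + la = 1 := by ring
  have smu : (1 - mu) + mu = 1 := by ring
  have hq : (1-la) • p2 + la • p1 ∈ K := h.conv h.m2 h.m1 la1 la0 sla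
  have hq' : (1-mu) • p3 + mu • p4 ∈ K := h.conv h.m3 h.m4 mu1 mu0 smu
  obtain ⟨q, hqd⟩ : ∃ q, q = (1-la) • p2 + la • p1 := ⟨_, rfl⟩
  obtain ⟨q', hqd'⟩ : ∃ q', q' = (1-mu) • p3 + mu • p4 := ⟨_, rfl⟩
  rw [← hqd] at hq
  rw [← hqd'] at hq'
  have Mpos : 0 < x2*x3/S := div_pos (mul_pos h2 h3) hS
  have hSne : S ≠ 0 := hS.ne'
  -- the ten areas in all forms
  have E0 := h.e0
  have E1 := h.e1
  have E2 := h.e2
  have E3 := h.e3
  have E4 := h.e4
  have F0 := h.f0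
  have F1 := h.f1
  have F2 := h.f2
  have F3 := h.f3
  have F4 := h.f4
  have G := h.G
  -- areas with one new point
  have a1 : det2 p0 q p3 = S * ((1-la)*(1-x1-x4) + la*(1-x4-x2)) := by
    rw [hqd, det2_comb2 sla, F0, det2_cyc p0 p1 p3, det2_cyc p1 p3 p0, F3]; ring
  have a2 : det2 p0 q p4 = S * ((1-la)*(1-x3-x1) + la*x0) := by
    rw [hqd, det2_comb2 sla, det2_cyc p0 p2 p4, F2, det2_cyc p0 p1 p4, det2_cyc p1 p4 p0, E0]
    ring
  have a3 : det2 p1 p2 q' = S * ((1-mu)*x2 + mu*(1-x0-x3)) := by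
    rw [hqd', det2_comb3 smu, E2, det2_cyc p1 p2 p4, det2_cyc p2 p4 p1, F4]; ring
  have a4 : det2 p3 p4 q = S * ((1-la)*x3 + la*(1-x2-x0)) := by
    rw [hqd, det2_comb3 sla, ← det2_cyc p2 p3 p4, E3, ← det2_cyc p1 p3 p4, F1]; ring
  have dd : det2 p0 q q' = S * ((1-mu)*((1-la)*(1-x1-x4) + la*(1-x4-x2))
      + mu*((1-la)*(1-x3-x1) + la*x0)) := by
    rw [hqd', det2_comb3 smu, a1, a2]; ring
  have hMdd : x2*x3/S * det2 p0 q q' = (1-x1-x4-k)*(x2*x3 + k*(1-x0-x2-x3)) := by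
    rw [dd]
    have : x2*x3/S * (S * ((1-mu)*((1-la)*(1-x1-x4) + la*(1-x4-x2))
      + mu*((1-la)*(1-x3-x1) + la*x0)))
      = ((x3-mu*x3)*((x2-la*x2)*(1-x1-x4) + la*x2*(1-x4-x2))
      + mu*x3*((x2-la*x2)*(1-x3-x1) + la*x2*x0)) := by
      field_simp
    rw [this, la2, mu3]
    linear_combination (-k)*G
  have ddpos : 0 < det2 p0 q q' := by
    have h5 : 0 < x2*x3/S * det2 p0 q q' := by
      rw [hMdd]; exact mul_pos (by linarith) hR
    exact (mul_pos_iff_of_pos_left Mpos).1 h5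
  have kR : 0 ≤ k*(x2*x3 + k*(1-x0-x2-x3)) := mul_nonneg hk hR.le
  have y1 := h.n1
  have y4 := h.n4
  have hMS : ∀ z : ℝ, x2*x3/S*(S*z) = x2*x3*z := by
    intro z
    field_simp
  have M0 := Mpos.le
  refine ⟨p0, h.m0, q, hq, q', hq', ?_⟩
  refine coverL (M := x2*x3/S) (e1 := k*(x2*x3 + k*(1-x0-x2-x3))) (e2 := (x3-k)*x4*x2)
    (e3 := (x2-k)*x1*x3) hka Mpos ddpos ?_ ?_ ?_ ?_
  · have A3 : 0 ≤ det2 p1 p2 q' := by
      rw [a3]
      exact mul_nonneg hS.le (add_nonneg (mul_nonneg mu1 h.n2) (mul_nonneg mu0 h.d4))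
    have A4 : 0 ≤ det2 p3 p4 q := by
      rw [a4]
      exact mul_nonneg hS.le (add_nonneg (mul_nonneg la1 h.n3) (mul_nonneg la0 h.d1))
    refine fun P hP => h.min _ (convex_det1 _ _ _ _) ?_ ?_ ?_ ?_ ?_ hP
    · simp only [Set.mem_ofPred_eq]
      have := mul_nonneg M0 ddpos.le
      linarith
    · simp only [Set.mem_ofPred_eq]
      have e : det2 p1 q q' = (1-la)*det2 p1 p2 q' := by
        conv_lhs => rw [hqd]
        rw [det2_comb2 sla, det2_self1]; ring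
      rw [e]
      have := mul_nonneg M0 (mul_nonneg la1 A3)
      linarith
    · simp only [Set.mem_ofPred_eq]
      have e : det2 p2 q q' = S*(-(la*((1-mu)*x2 + mu*(1-x0-x3)))) := by
        conv_lhs => rw [hqd]
        rw [det2_comb2 sla, det2_self1, det2_swap p2 p1 q', ← det2_cyc p1 p2 q', a3]
        ring
      rw [e, hMS]
      have : x2*x3*(la*((1-mu)*x2+mu*(1-x0-x3))) = k*((x3-k)*x2 + k*(1-x0-x3)) := by
        linear_combination (x3*((1-mu)*x2+mu*(1-x0-x3)))*la2 + k*(-x2 + (1-x0-x3))*mu3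
      linarith
    · simp only [Set.mem_ofPred_eq]
      have e : det2 p3 q q' = S*(-(mu*((1-la)*x3 + la*(1-x2-x0)))) := by
        conv_lhs => rw [hqd']
        rw [det2_comb3 smu, det2_self3, det2_swap p3 q p4, a4]
        ring
      rw [e, hMS]
      have : x2*x3*(mu*((1-la)*x3+la*(1-x2-x0))) = k*((x2-k)*x3 + k*(1-x2-x0)) := by
        linear_combination (x2*((1-la)*x3+la*(1-x2-x0)))*mu3 + k*(-x3 + (1-x2-x0))*la2
      linarith
    · simp only [Set.mem_ofPred_eq]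
      have e : det2 p4 q q' = (1-mu)*det2 p3 p4 q := by
        conv_lhs => rw [hqd']
        rw [det2_comb3 smu, det2_self3, ← det2_cyc p3 p4 q]; ring
      rw [e]
      have := mul_nonneg M0 (mul_nonneg mu1 A4)
      linarith
  · have k4 : 0 ≤ (x3-k)*x4*x2 := mul_nonneg (mul_nonneg (by linarith) y4) h2.le
    refine fun P hP => h.min _ (convex_det1 _ _ _ _) ?_ ?_ ?_ ?_ ?_ hP
    · simp only [Set.mem_ofPred_eq]
      rw [det2_self3]; linarith
    · simp only [Set.mem_ofPred_eq]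
      have e : det2 p1 q' p0 = S*((1-mu)*(1-x4-x2) + mu*x0) := by
        rw [← det2_cyc p0 p1 q', hqd', det2_comb3 smu, det2_cyc p0 p1 p3, det2_cyc p1 p3 p0, F3,
          det2_cyc p0 p1 p4, det2_cyc p1 p4 p0, E0]; ring
      rw [e, hMS]
      have := mul_nonneg (mul_nonneg h2.le h3.le) (add_nonneg (mul_nonneg mu1 h.d3)
        (mul_nonneg mu0 h.n0))
      linarith
    · simp only [Set.mem_ofPred_eq]
      have e : det2 p2 q' p0 = S*((1-mu)*(1-x1-x4) + mu*(1-x3-x1)) := by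
        rw [hqd', det2_comb2 smu, ← det2_cyc p0 p2 p3, F0, F2]; ring
      rw [e, hMS]
      have := mul_nonneg (mul_nonneg h2.le h3.le) (add_nonneg (mul_nonneg mu1 h.d0)
        (mul_nonneg mu0 h.d2))
      linarith
    · simp only [Set.mem_ofPred_eq]
      have e : det2 p3 q' p0 = S*(mu*x4) := by
        rw [hqd', det2_comb2 smu, det2_self1, E4]; ring
      rw [e, hMS]
      have := mul_nonneg (mul_nonneg h2.le h3.le) (mul_nonneg mu0 y4)
      linarith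
    · simp only [Set.mem_ofPred_eq]
      have e : det2 p4 q' p0 = S*(-((1-mu)*x4)) := by
        rw [hqd', det2_comb2 smu, det2_self1, det2_swap p4 p3 p0, det2_cyc p4 p0 p3,
          det2_cyc p0 p3 p4, E4]; ring
      rw [e, hMS]
      have : x2*x3*((1-mu)*x4) = (x3-k)*x4*x2 := by
        linear_combination (-x2*x4)*mu3
      linarith
  · have k1 : 0 ≤ (x2-k)*x1*x3 := mul_nonneg (mul_nonneg (by linarith) y1) h3.le
    refine fun P hP => h.min _ (convex_det1 _ _ _ _) ?_ ?_ ?_ ?_ ?_ hP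
    · simp only [Set.mem_ofPred_eq]
      rw [det2_self1]; linarith
    · simp only [Set.mem_ofPred_eq]
      have e : det2 p1 p0 q = S*(-((1-la)*x1)) := by
        rw [hqd, det2_comb3 sla, det2_self3, det2_swap p1 p0 p2, det2_cyc p1 p2 p0,
          det2_cyc p2 p0 p1, E1]; ring
      rw [e, hMS]
      have : x2*x3*((1-la)*x1) = (x2-k)*x1*x3 := by
        linear_combination (-x3*x1)*la2
      linarith
    · simp only [Set.mem_ofPred_eq]
      have e : det2 p2 p0 q = S*(la*x1) := by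
        rw [hqd, det2_comb3 sla, det2_self3, det2_cyc p2 p0 p1, E1]; ring
      rw [e, hMS]
      have := mul_nonneg (mul_nonneg h2.le h3.le) (mul_nonneg la0 y1)
      linarith
    · simp only [Set.mem_ofPred_eq]
      have e : det2 p3 p0 q = S*((1-la)*(1-x1-x4) + la*(1-x4-x2)) := by
        rw [hqd, det2_comb3 sla, det2_cyc p3 p0 p2, F0, F3]; ring
      rw [e, hMS]
      have := mul_nonneg (mul_nonneg h2.le h3.le) (add_nonneg (mul_nonneg la1 h.d0)
        (mul_nonneg la0 h.d3))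
      linarith
    · simp only [Set.mem_ofPred_eq]
      have e : det2 p4 p0 q = S*((1-la)*(1-x3-x1) + la*x0) := by
        rw [hqd, det2_comb3 sla, ← det2_cyc p2 p4 p0, F2, E0]; ring
      rw [e, hMS]
      have := mul_nonneg (mul_nonneg h2.le h3.le) (add_nonneg (mul_nonneg la1 h.d2)
        (mul_nonneg la0 h.n0))
      linarith
  · rw [hMdd]
    have hkG : k*(1 - (x0+x1+x2+x3+x4) + (x0*x1+x1*x2+x2*x3+x3*x4+x4*x0)) = 0 := by
      rw [G, mul_zero]
    linarith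

end Pool.Agent.HBM5
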