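import Mathlib

/-!
# Algebraic identities for the pentagon inequality
-/

namespace Pool.Agent.HBM5

/-- Coefficient polynomial. -/
noncomputable def Uf (w x : ℝ) : ℝ := (7*w-11)/4 - w*x/2

/-- Coefficient polynomial. -/
noncomputable def Vf (w x : ℝ) : ℝ := (17-8*w)/10 + (1/2+4*w/5)*x - (1+w/2)*x^2

/-- The weighted condition of one vertex: `x` the ear at the vertex, `y, y'` the adjacent ears,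
`z, z'` the opposite ears. -/
noncomputable def Wf (w x y y' z z' : ℝ) : ℝ :=
  z*z'*((1-y-y')*Uf w x - (y+y')) + (1-y-y')*Vf w x*(y*z'+y'*z-z*z')

/-- The local polynomial in the two modes. -/
noncomputable def fP (w m a b : ℝ) : ℝ :=
    (1 + (-3/5)*w)*m + ((-3/10) + (6/25)*w)*b^2 + ((-29/5) + (137/50)*w)*a^2
    + ((39/20) + (-201/100)*w)*m^2 + ((-43/5) + (23/10)*w)*a*b^2
    + ((303/20) + (-111/20)*w)*a^2*b + ((37/5) + (-19/10)*w)*m*b^2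
    + ((-277/20) + (123/20)*w)*m*a^2 + ((-1/5) + (-2)*w)*m^3 + ((1/3) + (11/15)*w)*b^4
    + ((15/4) + (-3/20)*w)*a*b^3 + ((-2) + (-21/10)*w)*a^2*b^2 + ((-9/4) + (-33/20)*w)*a^3*b
    + ((13/12) + (49/60)*w)*a^4 + ((17/4) + (41/20)*w)*m*a*b^2 + ((-29/4) + (21/20)*w)*m*a^2*b
    + ((-25/8) + (-69/40)*w)*m^2*b^2 + ((33/8) + (-9/40)*w)*m^2*a^2 + ((1/2) + (2/5)*w)*m^4
    + ((9/2) + 2*w)*b^5 + ((-15/8) + (-3/4)*w)*a*b^4 + ((-5) + (-13/6)*w)*a^2*b^3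
    + ((5/3) + (1/2)*w)*a^3*b^2 + ((15/8) + (3/4)*w)*a^4*b + ((-1/2))*a^5
    + ((35/12) + (13/12)*w)*m*b^4 + ((-5) + (-2)*w)*m*a*b^3 + (10 + 5*w)*m*a^2*b^2
    + (5 + 2*w)*m*a^3*b + ((-55/12) + (-23/12)*w)*m*a^4 + ((-15) + (-13/2)*w)*m^2*a*b^2
    + (5 + (3/2)*w)*m^2*a^2*b + ((-5/2) + (-1)*w)*m^3*b^2 + ((5/2) + 1*w)*m^3*a^2
    + (2 + 1*w)*m^5

/-- The same polynomial in rational coordinates. -/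
noncomputable def Phi (w M s n : ℝ) : ℝ :=
    ((21/800) + (-19/800)*w)*n^2 + ((-157/80) + (83/80)*w)*s*n + ((21/160) + (-19/160)*w)*s^2
    + ((-21/20) + (19/20)*w)*M^2 + ((81/400) + (-31/200)*w)*n^3 + ((-91/400) + (7/50)*w)*s*n^2
    + ((-81/80) + (31/40)*w)*s^2*n + ((91/80) + (-7/10)*w)*s^3 + ((-47/100) + (8/25)*w)*M*n^2
    + ((83/20) + (-51/20)*w)*M*s*n + ((-47/20) + (8/5)*w)*M*s^2 + ((3/5) + (-8/5)*w)*M^3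
    + ((-1/96))*n^4 + ((5/48) + (3/40)*w)*s*n^3 + ((1/4) + (9/40)*w)*s^2*n^2
    + ((-5/48) + (-3/40)*w)*s^3*n + ((-7/96) + (-9/40)*w)*s^4 + ((1/8) + (47/400)*w)*M*n^3
    + ((-1/20) + (-61/400)*w)*M*s*n^2 + ((-5/8) + (-47/80)*w)*M*s^2*n
    + ((1/4) + (61/80)*w)*M*s^3 + ((1/20) + (-39/400)*w)*M^2*n^2 + (0 + (11/40)*w)*M^2*s*n
    + ((1/4) + (-39/80)*w)*M^2*s^2 + ((-2) + (-11/10)*w)*M^4 + ((-1/960) + (-1/1920)*w)*n^5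
    + ((1/48) + (1/96)*w)*s*n^4 + ((-17/96) + (-17/192)*w)*s^2*n^3
    + ((7/24) + (7/48)*w)*s^3*n^2 + ((-17/192) + (-17/384)*w)*s^4*n + ((1/48) + (1/96)*w)*s^5
    + ((1/48) + (1/96)*w)*M*n^4 + ((-1/4) + (-1/8)*w)*M*s*n^3 + ((-3/8) + (-3/16)*w)*M*s^2*n^2
    + ((-1/4) + (-1/8)*w)*M*s^3*n + ((25/48) + (25/96)*w)*M*s^4 + ((-1/5) + (-1/10)*w)*M^2*n^3
    + ((1/4) + (1/8)*w)*M^2*s*n^2 + (1 + (1/2)*w)*M^2*s^2*n + ((-5/4) + (-5/8)*w)*M^2*s^3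
    + (1 + (1/2)*w)*M^3*s*n + (2 + 1*w)*M^5

theorem Phi_eq {w : ℝ} (hw : w^2 = 5) (M s n : ℝ) :
    Phi w M s n = fP w (M - (5-w)/10) ((s + w*n/5)/2) ((s - w*n/5)/2) := by
  unfold Phi fP
  linear_combination (-(
    (3/800) + (1/160)*w + (29/200)*M + (-7/10000)*w^2 + (21/4000)*n^2 + (-157/400)*s*n
    + (63/400)*s^2 + (-49/2000)*M*w + (-31/100)*M^2 + (-19/100000)*w^3 + (-19/4000)*n^2*w
    + (81/2000)*n^3 + (13/160)*s*n*w + (-91/2000)*s*n^2 + (-39/8000)*s^2*w + (-81/400)*s^2*n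
    + (71/800)*s^3 + (-37/5000)*M*w^2 + (-47/500)*M*n^2 + (83/100)*M*s*n + (-39/400)*M*s^2
    + (-53/500)*M^2*w + (-16/25)*M^3 + (1/100000)*w^4 + (63/10000)*n^2*w^2 + (-31/1000)*n^3*w
    + (-1/480)*n^4 + (-1/1000)*s*n*w^2 + (7/250)*s*n^2*w + (1/48)*s*n^3 + (-7/400)*s^2*n*w
    + (1/20)*s^2*n^2 + (-1/160)*s^3*w + (-1/48)*s^3*n + (5/192)*s^4 + (1/2000)*M*w^3
    + (8/125)*M*n^2*w + (1/40)*M*n^3 + (-3/200)*M*s*n*w + (-1/100)*M*s*n^2 + (-1/8)*M*s^2*n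
    + (-1/8)*M*s^3 + (1/100)*M^2*w^2 + (1/100)*M^2*n^2 + (1/10)*M^3*w + (1/2)*M^4
    + (-39/200000)*n^2*w^3 + (81/10000)*n^3*w^2 + (-1/4800)*n^5 + (1/5000)*s*n*w^3
    + (-71/20000)*s*n^2*w^2 + (3/200)*s*n^3*w + (1/240)*s*n^4 + (1/500)*s^2*n*w^2
    + (9/200)*s^2*n^2*w + (-17/480)*s^2*n^3 + (-1/200)*s^3*n*w + (7/120)*s^3*n^2
    + (-17/960)*s^4*n + (-39/10000)*M*n^2*w^2 + (47/2000)*M*n^3*w + (1/240)*M*n^4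
    + (3/500)*M*s*n*w^2 + (-61/2000)*M*s*n^2*w + (-1/20)*M*s*n^3 + (1/25)*M*s^2*n*w
    + (-3/40)*M*s^2*n^2 + (-1/20)*M*s^3*n + (-39/2000)*M^2*n^2*w + (-1/25)*M^2*n^3
    + (3/50)*M^2*s*n*w + (1/20)*M^2*s*n^2 + (1/5)*M^2*s^2*n + (1/5)*M^3*s*n + (7/10000)*n^3*w^3
    + (-1/2400)*n^4*w^2 + (-1/9600)*n^5*w + (1/4000)*s*n^2*w^3 + (1/240)*s*n^3*w^2
    + (1/480)*s*n^4*w + (-3/800)*s^2*n^2*w^2 + (-17/960)*s^2*n^3*w + (7/240)*s^3*n^2*w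
    + (1/200)*M*n^3*w^2 + (1/480)*M*n^4*w + (1/200)*M*s*n^2*w^2 + (-1/40)*M*s*n^3*w
    + (-3/80)*M*s^2*n^2*w + (-1/50)*M^2*n^3*w + (1/40)*M^2*s*n^2*w + (-1/12500)*n^3*w^4
    + (-1/24000)*n^5*w^2 + (-1/1000)*s*n^3*w^3 + (1/1200)*s*n^4*w^2 + (-17/2400)*s^2*n^3*w^2
    + (-1/625)*M*n^3*w^3 + (1/1200)*M*n^4*w^2 + (-1/100)*M*s*n^3*w^2 + (-1/125)*M^2*n^3*w^2
    + (1/24000)*n^4*w^4 + (-1/48000)*n^5*w^3 + (1/2400)*s*n^4*w^3 + (1/2400)*M*n^4*w^3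
    + (-1/120000)*n^5*w^4)) * hw

theorem sumW (w x0 x1 x2 x3 x4 M : ℝ) (hM : x4 = 5*M - x0 - x1 - x2 - x3) :
    Wf w x0 x1 x4 x2 x3 + Wf w x1 x2 x0 x3 x4 + Wf w x2 x3 x1 x4 x0 + Wf w x3 x4 x2 x0 x1
      + Wf w x4 x0 x3 x1 x2
    = Phi w M (x0-M) (x1+x4-x2-x3) + Phi w M (x1-M) (x2+x0-x3-x4)
      + Phi w M (x2-M) (x3+x1-x4-x0) + Phi w M (x3-M) (x4+x2-x0-x1)
      + Phi w M (x4-M) (x0+x3-x1-x2) := by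
  subst hM
  unfold Wf Uf Vf Phi
  ring

end Pool.Agent.HBM5
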