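import Pool.Agent.HBM5.Geo

/-!
# Pentagons: the main theorem for five points in convex position
-/

namespace Pool.Agent.HBM5

open Pointwise Pool.Agent.HBM3

theorem level_of_W {K : Set Pl} {p0 p1 p2 p3 p4 : Pl} {S x0 x1 x2 x3 x4 w : ℝ}
    (hw : w^2 = 5) (hw0 : 0 < w) (h : Pent K p0 p1 p2 p3 p4 S x0 x1 x2 x3 x4)
    (b0 : 1923/10000 ≤ x0 ∧ x0 ≤ 3355/10000) (b1 : 1923/10000 ≤ x1 ∧ x1 ≤ 3355/10000)
    (b2 : 1923/10000 ≤ x2 ∧ x2 ≤ 3355/10000) (b3 : 1923/10000 ≤ x3 ∧ x3 ≤ 3355/10000)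
    (b4 : 1923/10000 ≤ x4 ∧ x4 ≤ 3355/10000) (hW : 0 ≤ Wf w x0 x1 x4 x2 x3) :
    Concl5 (w/2) K := by
  obtain ⟨hw1, hw2⟩ := sqrt5_bounds hw hw0
  obtain ⟨b01, b02⟩ := b0
  obtain ⟨b11, b12⟩ := b1
  obtain ⟨b21, b22⟩ := b2
  obtain ⟨b31, b32⟩ := b3
  obtain ⟨b41, b42⟩ := b4
  obtain ⟨s, hs⟩ : ∃ s, s = (11*w-25)/10 + x0 := ⟨_, rfl⟩
  have s1 : 15/100 ≤ s := by rw [hs]; linarith
  have s2 : s ≤ 30/100 := by rw [hs]; linarith
  obtain ⟨t, ht⟩ : ∃ t, t = 1 - x1 - x4 := ⟨_, rfl⟩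
  have t1 : 32/100 ≤ t := by rw [ht]; linarith
  have t2 : t ≤ 616/1000 := by rw [ht]; linarith
  have k0 : 0 ≤ s*t := by positivity
  have k1 : s*t ≤ 185/1000 := by
    have h1 : s*t ≤ 30/100*(616/1000) :=
      mul_le_mul s2 t2 (by linarith) (by norm_num)
    linarith
  have k2 : s*t < t := by
    have := mul_lt_mul_of_pos_right (by linarith : s < 1) (by linarith : 0 < t)
    linarith
  have hx23 : (1923/10000)*(1923/10000) ≤ x2*x3 :=
    mul_le_mul b21 b31 (by norm_num) (by linarith)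
  have hR : 0 < x2*x3 + s*t*(1-x0-x2-x3) := by
    have h1 : 0 ≤ s*t*((1-x0-x2-x3) + 1/100) := mul_nonneg k0 (by linarith)
    linarith
  refine level (k := s*t) h (by linarith) k0 (by linarith) (by linarith) (by linarith)
    (by linarith) (by linarith) hR ?_
  have key : (1-x1-x4-s*t)*(w/2*(x2*x3) + (w/2+1)*(s*t*(1-x0-x2-x3))) - x2*x3*(x1+x4)
      = Wf w x0 x1 x4 x2 x3 := by
    unfold Wf Uf Vf
    have G := h.G
    rw [hs, ht]
    linear_combination ((1-x1-x4)*(1-((11*w-25)/10 + x0))*((11*w-25)/10 + x0)*(1+w/2))*G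
      + ((-11/20)*(1-x1-x4)*x2*x3 + (-605/1000*w+209/100-11/10*x0)*(1-x1-x4)
        *(x1*x3+x4*x2-x2*x3))*hw
  linarith

theorem star' {K : Set Pl} {p0 p1 p2 p3 p4 : Pl} {S x0 x1 x2 x3 x4 w : ℝ}
    (hw : w^2 = 5) (hw0 : 0 < w) (h : Pent K p0 p1 p2 p3 p4 S x0 x1 x2 x3 x4)
    (hc : x1 + x4 ≤ 5 - 2*w) : Concl5 (w/2) K := by
  obtain ⟨hw1, hw2⟩ := sqrt5_bounds hw hw0
  refine star h (by linarith) (by linarith) ?_
  have h1 := mul_nonneg (by linarith : 0 ≤ 1 + w/2) (by linarith : 0 ≤ 5 - 2*w - (x1+x4))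
  have e : (1+w/2)*(5-2*w-(x1+x4)) = w/2*(1-x1-x4) - (x1+x4) := by
    linear_combination (-1 : ℝ)*hw
  rw [e] at h1
  linarith

theorem pent_main {K : Set Pl} {p0 p1 p2 p3 p4 : Pl} {S x0 x1 x2 x3 x4 w : ℝ}
    (hw : w^2 = 5) (hw0 : 0 < w) (h : Pent K p0 p1 p2 p3 p4 S x0 x1 x2 x3 x4) :
    Concl5 (w/2) K := by
  by_cases c0 : x1 + x4 ≤ 5 - 2*w
  · exact star' hw hw0 h c0
  by_cases c1 : x2 + x0 ≤ 5 - 2*w
  · exact star' hw hw0 h.rot c1
  by_cases c2 : x3 + x1 ≤ 5 - 2*w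
  · exact star' hw hw0 h.rot.rot c2
  by_cases c3 : x4 + x2 ≤ 5 - 2*w
  · exact star' hw hw0 h.rot.rot.rot c3
  by_cases c4 : x0 + x3 ≤ 5 - 2*w
  · exact star' hw hw0 h.rot.rot.rot.rot c4
  have d0 := h.d0
  have d1 := h.d1
  have d2 := h.d2
  have d3 := h.d3
  have d4 := h.d4
  obtain ⟨⟨b0, b1, b2, b3, b4⟩, hsum⟩ := core hw hw0 h.n0 h.n1 h.n2 h.n3 h.n4 h.G
    (not_le.1 c0).le (not_le.1 c1).le (not_le.1 c2).le (not_le.1 c3).le (not_le.1 c4).le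
    (by linarith) (by linarith) (by linarith) (by linarith) (by linarith)
  by_cases w0 : 0 ≤ Wf w x0 x1 x4 x2 x3
  · exact level_of_W hw hw0 h b0 b1 b2 b3 b4 w0
  by_cases w1 : 0 ≤ Wf w x1 x2 x0 x3 x4
  · exact level_of_W hw hw0 h.rot b1 b2 b3 b4 b0 w1
  by_cases w2 : 0 ≤ Wf w x2 x3 x1 x4 x0
  · exact level_of_W hw hw0 h.rot.rot b2 b3 b4 b0 b1 w2
  by_cases w3 : 0 ≤ Wf w x3 x4 x2 x0 x1
  · exact level_of_W hw hw0 h.rot.rot.rot b3 b4 b0 b1 b2 w3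
  by_cases w4 : 0 ≤ Wf w x4 x0 x3 x1 x2
  · exact level_of_W hw hw0 h.rot.rot.rot.rot b4 b0 b1 b2 b3 w4
  exfalso
  linarith [not_le.1 w0, not_le.1 w1, not_le.1 w2, not_le.1 w3, not_le.1 w4]

/-- Five points in (weakly) convex position in cyclic order. -/
theorem five_points (v : Fin 5 → Pl)
    (hv : ∀ i j k : Fin 5, i < j → j < k → 0 ≤ det2 (v i) (v j) (v k))
    (hS : 0 < det2 (v 0) (v 1) (v 2) + det2 (v 0) (v 2) (v 3) + det2 (v 0) (v 3) (v 4))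
    {w : ℝ} (hw : w^2 = 5) (hw0 : 0 < w) : Concl5 (w/2) (convexHull ℝ (Set.range v)) := by
  have h012 := hv 0 1 2 (by decide) (by decide)
  have h013 := hv 0 1 3 (by decide) (by decide)
  have h014 := hv 0 1 4 (by decide) (by decide)
  have h023 := hv 0 2 3 (by decide) (by decide)
  have h024 := hv 0 2 4 (by decide) (by decide)
  have h034 := hv 0 3 4 (by decide) (by decide)
  have h123 := hv 1 2 3 (by decide) (by decide)
  have h124 := hv 1 2 4 (by decide) (by decide)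
  have h134 := hv 1 3 4 (by decide) (by decide)
  have h234 := hv 2 3 4 (by decide) (by decide)
  have hr : ∀ i, v i ∈ convexHull ℝ (Set.range v) := fun i =>
    subset_convexHull ℝ _ (Set.mem_range_self i)
  obtain ⟨S, hSd⟩ : ∃ S, S = det2 (v 0) (v 1) (v 2) + det2 (v 0) (v 2) (v 3)
    + det2 (v 0) (v 3) (v 4) := ⟨_, rfl⟩
  rw [← hSd] at hS
  have hne : S ≠ 0 := hS.ne'
  refine pent_main (p0 := v 0) (p1 := v 1) (p2 := v 2) (p3 := v 3) (p4 := v 4) (S := S)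
    (x0 := det2 (v 4) (v 0) (v 1) / S) (x1 := det2 (v 0) (v 1) (v 2) / S)
    (x2 := det2 (v 1) (v 2) (v 3) / S) (x3 := det2 (v 2) (v 3) (v 4) / S)
    (x4 := det2 (v 3) (v 4) (v 0) / S) hw hw0 ?_
  have r0 : det2 (v 4) (v 0) (v 1) = det2 (v 0) (v 1) (v 4) := det2_cyc _ _ _
  have r4 : det2 (v 3) (v 4) (v 0) = det2 (v 0) (v 3) (v 4) := by
    rw [det2_cyc, det2_cyc]
  have g0 : det2 (v 0) (v 2) (v 3) = S * (1 - det2 (v 0) (v 1) (v 2) / S
      - det2 (v 3) (v 4) (v 0) / S) := by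
    field_simp; rw [hSd]; unfold det2; ring
  have g1 : det2 (v 1) (v 3) (v 4) = S * (1 - det2 (v 1) (v 2) (v 3) / S
      - det2 (v 4) (v 0) (v 1) / S) := by
    field_simp; rw [hSd]; unfold det2; ring
  have g2 : det2 (v 2) (v 4) (v 0) = S * (1 - det2 (v 2) (v 3) (v 4) / S
      - det2 (v 0) (v 1) (v 2) / S) := by
    field_simp; rw [hSd]; unfold det2; ring
  have g3 : det2 (v 3) (v 0) (v 1) = S * (1 - det2 (v 3) (v 4) (v 0) / S
      - det2 (v 1) (v 2) (v 3) / S) := by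
    field_simp; rw [hSd]; unfold det2; ring
  have g4 : det2 (v 4) (v 1) (v 2) = S * (1 - det2 (v 4) (v 0) (v 1) / S
      - det2 (v 2) (v 3) (v 4) / S) := by
    field_simp; rw [hSd]; unfold det2; ring
  refine
    { conv := convex_convexHull ℝ _, m0 := hr 0, m1 := hr 1, m2 := hr 2, m3 := hr 3, m4 := hr 4,
      min := ?_, hS := hS, e0 := ?_, e1 := ?_, e2 := ?_, e3 := ?_, e4 := ?_,
      f0 := g0, f1 := g1, f2 := g2, f3 := g3, f4 := g4, n0 := ?_, n1 := ?_, n2 := ?_, n3 := ?_,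
      n4 := ?_, d0 := ?_, d1 := ?_, d2 := ?_, d3 := ?_, d4 := ?_, G := ?_ }
  · intro s hs a b c d e
    refine convexHull_min ?_ hs
    rintro _ ⟨i, rfl⟩
    fin_cases i
    exacts [a, b, c, d, e]
  · field_simp
  · field_simp
  · field_simp
  · field_simp
  · field_simp
  · rw [r0]; positivity
  · positivity
  · positivity
  · positivity
  · rw [r4]; positivity
  · have : 0 ≤ det2 (v 0) (v 2) (v 3) := h023
    rw [g0] at this
    exact (mul_nonneg_iff_of_pos_left hS).1 this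
  · have : 0 ≤ det2 (v 1) (v 3) (v 4) := h134
    rw [g1] at this
    exact (mul_nonneg_iff_of_pos_left hS).1 this
  · have : 0 ≤ det2 (v 2) (v 4) (v 0) := by rw [← det2_cyc]; exact h024
    rw [g2] at this
    exact (mul_nonneg_iff_of_pos_left hS).1 this
  · have : 0 ≤ det2 (v 3) (v 0) (v 1) := by rw [det2_cyc]; exact h013
    rw [g3] at this
    exact (mul_nonneg_iff_of_pos_left hS).1 this
  · have : 0 ≤ det2 (v 4) (v 1) (v 2) := by rw [det2_cyc]; exact h124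
    rw [g4] at this
    exact (mul_nonneg_iff_of_pos_left hS).1 this
  · have key : S^2 - S*(det2 (v 4) (v 0) (v 1) + det2 (v 0) (v 1) (v 2) + det2 (v 1) (v 2) (v 3)
        + det2 (v 2) (v 3) (v 4) + det2 (v 3) (v 4) (v 0))
        + (det2 (v 4) (v 0) (v 1) * det2 (v 0) (v 1) (v 2)
          + det2 (v 0) (v 1) (v 2) * det2 (v 1) (v 2) (v 3)
          + det2 (v 1) (v 2) (v 3) * det2 (v 2) (v 3) (v 4)
          + det2 (v 2) (v 3) (v 4) * det2 (v 3) (v 4) (v 0)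
          + det2 (v 3) (v 4) (v 0) * det2 (v 4) (v 0) (v 1)) = 0 := by
      rw [hSd]; unfold det2; ring
    have hS2 : S^2 ≠ 0 := by positivity
    apply mul_left_cancel₀ hS2
    rw [mul_zero, ← key]
    field_simp

end Pool.Agent.HBM5
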