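import Pool.Agent.HBM5.Ident

/-!
# The local inequality in three variables
-/

namespace Pool.Agent.HBM5

theorem abs_mul_le' {x y X Y : ℝ} (hx : |x| ≤ X) (hy : |y| ≤ Y) : |x*y| ≤ X*Y := by
  rw [abs_mul]
  exact mul_le_mul hx hy (abs_nonneg _) ((abs_nonneg _).trans hx)

theorem comb {m a b U P Q R p0 q0 r0 : ℝ} (hU : 0 ≤ U) (hP : p0 ≤ P) (hR : r0 ≤ R)
    (hQ : |Q| ≤ q0) (hr : 0 < r0) (ha : a^2 ≤ 8594/1000000)
    (hc : q0^2*(8594/1000000) ≤ 4*p0*r0) : 0 ≤ m^2*U + a^2*P + a^2*b*Q + b^2*R := by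
  have hq : 0 ≤ q0 := (abs_nonneg _).trans hQ
  have h1 : -(q0*(a^2*|b|)) ≤ a^2*b*Q := by
    have : |a^2*b*Q| ≤ q0*(a^2*|b|) := by
      rw [abs_mul, abs_mul, abs_of_nonneg (sq_nonneg a), mul_comm]
      exact mul_le_mul_of_nonneg_right hQ (by positivity)
    exact (abs_le.1 this).1
  have h2 : 0 ≤ m^2*U := by positivity
  have h3 : a^2*p0 ≤ a^2*P := mul_le_mul_of_nonneg_left hP (sq_nonneg a)
  have h4 : b^2*r0 ≤ b^2*R := mul_le_mul_of_nonneg_left hR (sq_nonneg b)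
  have h5 : 0 ≤ b^2*r0 + a^2*p0 - q0*(a^2*|b|) := by
    have e : 4*r0*(b^2*r0 + a^2*p0 - q0*(a^2*|b|))
        = (2*r0*|b| - q0*a^2)^2 + a^2*(4*p0*r0 - q0^2*a^2) := by
      have := sq_abs b
      linear_combination (-4*r0^2)*this
    have h6 : q0^2*a^2 ≤ 4*p0*r0 :=
      (mul_le_mul_of_nonneg_left ha (sq_nonneg q0)).trans hc
    have h7 : 0 ≤ a^2*(4*p0*r0 - q0^2*a^2) := mul_nonneg (sq_nonneg a) (by linarith)
    have h8 : 0 ≤ 4*r0*(b^2*r0 + a^2*p0 - q0*(a^2*|b|)) := by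
      rw [e]; positivity
    exact nonneg_of_mul_nonneg_right h8 (by linarith)
  linarith

/-- `fP` plus the multiple of the Gauss relation, reduced with `w^2 = 5`. -/
noncomputable def hP (w m a b : ℝ) : ℝ :=
    ((-4/5) + (37/50)*w)*b^2 + ((-19/5) + (87/50)*w)*a^2 + ((-21/20) + (59/100)*w)*m^2
    + ((-43/5) + (23/10)*w)*a*b^2 + ((303/20) + (-111/20)*w)*a^2*b + ((47/5) + (1/10)*w)*m*b^2
    + ((-237/20) + (83/20)*w)*m*a^2 + ((-41/5) + (-2)*w)*m^3 + ((1/3) + (11/15)*w)*b^4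
    + ((15/4) + (-3/20)*w)*a*b^3 + ((-2) + (-21/10)*w)*a^2*b^2 + ((-9/4) + (-33/20)*w)*a^3*b
    + ((13/12) + (49/60)*w)*a^4 + ((17/4) + (41/20)*w)*m*a*b^2 + ((-29/4) + (21/20)*w)*m*a^2*b
    + ((-25/8) + (-69/40)*w)*m^2*b^2 + ((33/8) + (-9/40)*w)*m^2*a^2 + ((1/2) + (2/5)*w)*m^4
    + ((9/2) + 2*w)*b^5 + ((-15/8) + (-3/4)*w)*a*b^4 + ((-5) + (-13/6)*w)*a^2*b^3
    + ((5/3) + (1/2)*w)*a^3*b^2 + ((15/8) + (3/4)*w)*a^4*b + ((-1/2))*a^5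
    + ((35/12) + (13/12)*w)*m*b^4 + ((-5) + (-2)*w)*m*a*b^3 + (10 + 5*w)*m*a^2*b^2
    + (5 + 2*w)*m*a^3*b + ((-55/12) + (-23/12)*w)*m*a^4 + ((-15) + (-13/2)*w)*m^2*a*b^2
    + (5 + (3/2)*w)*m^2*a^2*b + ((-5/2) + (-1)*w)*m^3*b^2 + ((5/2) + 1*w)*m^3*a^2
    + (2 + 1*w)*m^5

theorem hP_eq {w : ℝ} (hw : w^2 = 5) (m a b : ℝ) :
    hP w m a b = fP w m a b + (3 - w + 8*m)*(w*m/5 - m^2 - (w-1)/4*a^2 + (w+1)/4*b^2) := by
  unfold hP fP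
  linear_combination (-((-1/5)*m + (-1/4)*b^2 + (1/4)*a^2)) * hw

theorem hP_nonneg_aux {w m a b : ℝ} (hw : w = 2236/1000 ∨ w = 22361/10000)
    (hm1 : -(125/10000) ≤ m) (hm2 : m ≤ 69/10000) (ha : |a| ≤ 927/10000)
    (hb : |b| ≤ 927/10000) : 0 ≤ hP w m a b := by
  have hm : |m| ≤ 125/10000 := abs_le.2 ⟨hm1, by linarith⟩
  have mm := abs_mul_le' hm hm
  have mmm := abs_mul_le' mm hm
  have ma := abs_mul_le' hm ha
  have mma := abs_mul_le' mm ha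
  have aa := abs_mul_le' ha ha
  have maa := abs_mul_le' ma ha
  have aaa := abs_mul_le' aa ha
  have ab := abs_mul_le' ha hb
  have mab := abs_mul_le' hm ab
  have aab := abs_mul_le' ha ab
  have bb := abs_mul_le' hb hb
  have mbb := abs_mul_le' hm bb
  have abb := abs_mul_le' ha bb
  have bbb := abs_mul_le' hb bb
  have m2n : 0 ≤ m*m := mul_self_nonneg m
  have a2n : 0 ≤ a*a := mul_self_nonneg a
  have b2n : 0 ≤ b*b := mul_self_nonneg b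
  rw [abs_le] at ha hb hm mm mmm ma mma aa maa aaa ab mab aab bb mbb abb bbb
  obtain ⟨ha1, ha2⟩ := ha
  obtain ⟨hb1, hb2⟩ := hb
  obtain ⟨-, mm2⟩ := mm
  obtain ⟨mmm1, mmm2⟩ := mmm
  obtain ⟨ma1, ma2⟩ := ma
  obtain ⟨mma1, mma2⟩ := mma
  obtain ⟨-, aa2⟩ := aa
  obtain ⟨maa1, maa2⟩ := maa
  obtain ⟨aaa1, aaa2⟩ := aaa
  obtain ⟨ab1, ab2⟩ := ab
  obtain ⟨mab1, mab2⟩ := mab
  obtain ⟨aab1, aab2⟩ := aab
  obtain ⟨bb1, bb2⟩ := bb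
  obtain ⟨mbb1, mbb2⟩ := mbb
  obtain ⟨abb1, abb2⟩ := abb
  obtain ⟨bbb1, bbb2⟩ := bbb
  have hasq : a^2 ≤ 8594/1000000 := by rw [sq]; linarith
  have hU : 0 ≤ (((-21/20) + (59/100)*w) + ((-41/5) + (-2)*w)*m + ((1/2) + (2/5)*w)*(m*m) + (2 + 1*w)*(m*m*m)) := by
    rcases hw with rfl | rfl <;> linarith
  have hPk : 0 ≤ a*a*(((13/12) + (49/60)*w) + ((-55/12) + (-23/12)*w)*m + ((-1/2))*a) := by
    refine mul_nonneg a2n ?_
    rcases hw with rfl | rfl <;> linarith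
  have hPP : 72/1000 ≤ (((-19/5) + (87/50)*w) + ((-237/20) + (83/20)*w)*m + ((33/8) + (-9/40)*w)*(m*m) + ((5/2) + 1*w)*(m*m*m) + a*a*(((13/12) + (49/60)*w) + ((-55/12) + (-23/12)*w)*m + ((-1/2))*a)) := by
    rcases hw with rfl | rfl <;> linarith
  rcases le_total 0 a with h | h
  · have hQ : |((303/20) + (-111/20)*w) + ((-29/4) + (21/20)*w)*m + (5 + (3/2)*w)*(m*m) + ((-9/4) + (-33/20)*w)*a + (5 + 2*w)*(m*a) + ((15/8) + (3/4)*w)*(a*a)| ≤ 285/100 := by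
      rw [abs_le]
      rcases hw with rfl | rfl <;> constructor <;> linarith
    have hR : 280/1000 ≤ (((-4/5) + (37/50)*w) + ((47/5) + (1/10)*w)*m + ((-25/8) + (-69/40)*w)*(m*m) + ((-5/2) + (-1)*w)*(m*m*m) + ((-43/5) + (23/10)*w)*a + ((17/4) + (41/20)*w)*(m*a) + ((-15) + (-13/2)*w)*(m*m*a) + ((-2) + (-21/10)*w)*(a*a) + (10 + 5*w)*(m*a*a) + ((5/3) + (1/2)*w)*(a*a*a) + ((15/4) + (-3/20)*w)*(a*b) + ((-5) + (-2)*w)*(m*(a*b)) + ((-5) + (-13/6)*w)*(a*(a*b)) + ((1/3) + (11/15)*w)*(b*b) + ((35/12) + (13/12)*w)*(m*(b*b)) + ((-15/8) + (-3/4)*w)*(a*(b*b)) + ((9/2) + 2*w)*(b*(b*b))) := by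
      rcases hw with rfl | rfl <;> linarith
    have := comb (m := m) (b := b) hU hPP hR hQ (by norm_num) hasq (by norm_num)
    refine this.trans (le_of_eq ?_)
    unfold hP
    ring
  · have hQ : |((303/20) + (-111/20)*w) + ((-29/4) + (21/20)*w)*m + (5 + (3/2)*w)*(m*m) + ((-9/4) + (-33/20)*w)*a + (5 + 2*w)*(m*a) + ((15/8) + (3/4)*w)*(a*a)| ≤ 341/100 := by
      rw [abs_le]
      rcases hw with rfl | rfl <;> constructor <;> linarith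
    have hR : 600/1000 ≤ (((-4/5) + (37/50)*w) + ((47/5) + (1/10)*w)*m + ((-25/8) + (-69/40)*w)*(m*m) + ((-5/2) + (-1)*w)*(m*m*m) + ((-43/5) + (23/10)*w)*a + ((17/4) + (41/20)*w)*(m*a) + ((-15) + (-13/2)*w)*(m*m*a) + ((-2) + (-21/10)*w)*(a*a) + (10 + 5*w)*(m*a*a) + ((5/3) + (1/2)*w)*(a*a*a) + ((15/4) + (-3/20)*w)*(a*b) + ((-5) + (-2)*w)*(m*(a*b)) + ((-5) + (-13/6)*w)*(a*(a*b)) + ((1/3) + (11/15)*w)*(b*b) + ((35/12) + (13/12)*w)*(m*(b*b)) + ((-15/8) + (-3/4)*w)*(a*(b*b)) + ((9/2) + 2*w)*(b*(b*b))) := by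
      rcases hw with rfl | rfl <;> linarith
    have := comb (m := m) (b := b) hU hPP hR hQ (by norm_num) hasq (by norm_num)
    refine this.trans (le_of_eq ?_)
    unfold hP
    ring

theorem hP_nonneg {w m a b : ℝ} (hw1 : 2236/1000 ≤ w) (hw2 : w ≤ 22361/10000)
    (hm1 : -(125/10000) ≤ m) (hm2 : m ≤ 69/10000) (ha : |a| ≤ 927/10000)
    (hb : |b| ≤ 927/10000) : 0 ≤ hP w m a b := by
  have h1 := hP_nonneg_aux (w := 2236/1000) (Or.inl rfl) hm1 hm2 ha hb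
  have h2 := hP_nonneg_aux (w := 22361/10000) (Or.inr rfl) hm1 hm2 ha hb
  have e : hP w m a b = (22361/10000 - w)*10000*hP (2236/1000) m a b
      + (w - 2236/1000)*10000*hP (22361/10000) m a b := by
    unfold hP
    ring
  rw [e]
  have := mul_nonneg (mul_nonneg (sub_nonneg.2 hw2) (by norm_num : (0:ℝ) ≤ 10000)) h1
  have := mul_nonneg (mul_nonneg (sub_nonneg.2 hw1) (by norm_num : (0:ℝ) ≤ 10000)) h2
  linarith

end Pool.Agent.HBM5
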